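import Mathlib

/-!
Finite coverings by cosets, divisible abelian subgroups and groups of Chernikov type among 2-groups.
-/

set_option autoImplicit false

namespace Run7.h79

open Subgroup

universe u

section basic

variable {G : Type u} [Group G]

/-- `K` is covered by finitely many left cosets of `D`. -/
def Cov (D : Subgroup G) (K : Set G) : Prop :=
  ∃ F : Set G, F.Finite ∧ ∀ k ∈ K, ∃ f ∈ F, f⁻¹ * k ∈ D

/-- commutativity of a subgroup, elementwise -/
def Cm (D : Subgroup G) : Prop := ∀ a ∈ D, ∀ b ∈ D, a * b = b * a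

/-- divisibility by two -/
def Dv (D : Subgroup G) : Prop := ∀ d ∈ D, ∃ e ∈ D, e * e = d

/-- finitely many elements of order at most two -/
def Sc (D : Subgroup G) : Prop := {a : G | a ∈ D ∧ a * a = 1}.Finite

theorem Cov.trans {E D : Subgroup G} {K : Set G} (h1 : Cov E K) (h2 : Cov D (E : Set G)) :
    Cov D K := by
  obtain ⟨F, hF, h1⟩ := h1
  obtain ⟨F', hF', h2⟩ := h2
  refine ⟨Set.image2 (fun a b => a * b) F F', hF.image2 _ hF', ?_⟩
  intro k hk
  obtain ⟨f, hf, hfk⟩ := h1 k hk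
  obtain ⟨f', hf', hfk'⟩ := h2 _ hfk
  refine ⟨f * f', ⟨f, hf, f', hf', rfl⟩, ?_⟩
  simpa [mul_assoc] using hfk'

theorem Cov.mono {D : Subgroup G} {K K' : Set G} (h : Cov D K) (hK : K' ⊆ K) : Cov D K' := by
  obtain ⟨F, hF, h⟩ := h
  exact ⟨F, hF, fun k hk => h k (hK hk)⟩

theorem Cov.sup {D D' : Subgroup G} {K : Set G} (h : Cov D K) (hD : D ≤ D') : Cov D' K := by
  obtain ⟨F, hF, h⟩ := h
  refine ⟨F, hF, fun k hk => ?_⟩
  obtain ⟨f, hf, hfk⟩ := h k hk
  exact ⟨f, hf, hD hfk⟩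

theorem Cov.refl (D : Subgroup G) : Cov D (D : Set G) :=
  ⟨{1}, Set.finite_singleton _, fun k hk => ⟨1, rfl, by simpa using hk⟩⟩

theorem Cov.inf {D : Subgroup G} {K : Set G} (h : Cov D K) (L : Subgroup G) :
    Cov (D ⊓ L) (K ∩ L) := by
  classical
  obtain ⟨F, hF, h⟩ := h
  let r : G → G := fun f => if hf : ∃ k, k ∈ K ∧ k ∈ L ∧ f⁻¹ * k ∈ D then hf.choose else 1
  refine ⟨r '' F, hF.image r, ?_⟩
  rintro k ⟨hk, hkL⟩
  obtain ⟨f, hf, hfk⟩ := h k hk
  refine ⟨r f, ⟨f, hf, rfl⟩, ?_⟩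
  have hex : ∃ k, k ∈ K ∧ k ∈ L ∧ f⁻¹ * k ∈ D := ⟨k, hk, hkL, hfk⟩
  have hr : r f = hex.choose := by simp only [r]; rw [dif_pos hex]
  obtain ⟨h1, h2, h3⟩ := hex.choose_spec
  rw [hr]
  refine ⟨?_, L.mul_mem (L.inv_mem h2) hkL⟩
  have := D.mul_mem (D.inv_mem h3) hfk
  simpa [mul_assoc] using this

theorem Cov.map {G' : Type*} [Group G'] {D : Subgroup G} {K : Set G} (h : Cov D K)
    (f : G →* G') : Cov (D.map f) (f '' K) := by
  obtain ⟨F, hF, h⟩ := h
  refine ⟨f '' F, hF.image _, ?_⟩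
  rintro _ ⟨k, hk, rfl⟩
  obtain ⟨x, hx, hxk⟩ := h k hk
  exact ⟨f x, ⟨x, hx, rfl⟩, ⟨_, hxk, by simp⟩⟩

theorem Cov.of_fiber {α : Type*} {D : Subgroup G} {K : Set G} (φ : G → α)
    (hφ : (φ '' K).Finite) (h : ∀ k ∈ K, ∀ k' ∈ K, φ k = φ k' → k⁻¹ * k' ∈ D) : Cov D K := by
  classical
  let r : α → G := fun a => if ha : ∃ k ∈ K, φ k = a then ha.choose else 1
  refine ⟨r '' (φ '' K), hφ.image r, ?_⟩
  intro k hk
  have hex : ∃ k' ∈ K, φ k' = φ k := ⟨k, hk, rfl⟩
  refine ⟨r (φ k), ⟨φ k, ⟨k, hk, rfl⟩, rfl⟩, ?_⟩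
  have hr : r (φ k) = hex.choose := by simp only [r]; rw [dif_pos hex]
  rw [hr]
  exact h _ hex.choose_spec.1 _ hk hex.choose_spec.2

theorem Cov.index {D : Subgroup G} (h : Cov D Set.univ) : D.index ≠ 0 := by
  classical
  obtain ⟨F, hF, h⟩ := h
  have : Finite (G ⧸ D) := by
    have hs : (Set.range (fun g : G => (QuotientGroup.mk g : G ⧸ D))).Finite := by
      refine (hF.image (fun g : G => (QuotientGroup.mk g : G ⧸ D))).subset ?_
      rintro _ ⟨g, rfl⟩
      obtain ⟨f, hf, hfg⟩ := h g trivial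
      exact ⟨f, hf, QuotientGroup.eq.2 hfg⟩
    have h2 : (Set.range (fun g : G => (QuotientGroup.mk g : G ⧸ D))) = Set.univ :=
      Set.eq_univ_of_forall (fun q => by
        obtain ⟨g, rfl⟩ := QuotientGroup.mk_surjective q
        exact ⟨g, rfl⟩)
    rw [h2] at hs
    exact Set.finite_univ_iff.1 hs
  exact Subgroup.index_ne_zero_of_finite

theorem Cov.finite {D : Subgroup G} {K : Set G} (h : Cov D K) (hD : (D : Set G).Finite) :
    K.Finite := by
  obtain ⟨F, hF, h⟩ := h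
  refine (hF.image2 (fun a b => a * b) hD).subset ?_
  intro k hk
  obtain ⟨f, hf, hfk⟩ := h k hk
  exact ⟨f, hf, f⁻¹ * k, hfk, by simp⟩

/-- in a 2-group, an odd power generates -/
theorem mem_of_odd_pow (hG : IsPGroup 2 G) (D : Subgroup G) (k : G) (m : ℕ) (hm : Odd m)
    (h : k ^ m ∈ D) : k ∈ D := by
  have hco : m.Coprime (orderOf k) := by
    obtain ⟨n, hn⟩ := hG k
    have h1 : orderOf k ∣ 2 ^ n := orderOf_dvd_of_pow_eq_one hn
    have h2 : m.Coprime (2 ^ n) := Nat.Coprime.pow_right n (Nat.coprime_two_right.2 hm)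
    exact Nat.Coprime.coprime_dvd_right h1 h2
  obtain ⟨r, hr⟩ := exists_pow_eq_self_of_coprime hco
  rw [← hr]
  exact D.pow_mem h r

theorem Cov.pow (hG : IsPGroup 2 G) {D K : Subgroup G} (h : Cov D (K : Set G)) :
    ∃ N : ℕ, ∀ k ∈ K, k ^ (2 ^ N) ∈ D := by
  classical
  obtain ⟨F, hF, h⟩ := h
  refine ⟨hF.toFinset.card, fun k hk => ?_⟩
  have key : ∀ n : ℕ, ∃ f ∈ hF.toFinset, f⁻¹ * k ^ n ∈ D := by
    intro n
    obtain ⟨f, hf, hfk⟩ := h (k ^ n) (K.pow_mem hk n)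
    exact ⟨f, by simpa using hf, hfk⟩
  choose f hf hfk using key
  obtain ⟨a, ha, b, hb, hab, hfab⟩ := Finset.exists_ne_map_eq_of_card_lt_of_maps_to
    (s := Finset.range (hF.toFinset.card + 1)) (t := hF.toFinset) (by simp) (f := f)
    (fun n _ => hf n)
  have main : ∀ a b : ℕ, a < b → b < hF.toFinset.card + 1 → f a = f b →
      k ^ (2 ^ hF.toFinset.card) ∈ D := by
    intro a b hab hb hfab
    have h1 : k ^ (b - a) ∈ D := by
      have := D.mul_mem (D.inv_mem (hfk a)) (hfk b)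
      rw [hfab] at this
      have h3 : (f b)⁻¹ * k ^ b = ((f b)⁻¹ * k ^ a) * k ^ (b - a) := by
        rw [mul_assoc, ← pow_add]
        congr 2
        omega
      rw [h3] at this
      simpa [mul_assoc] using this
    obtain ⟨j, m, hm, hjm⟩ := Nat.exists_eq_two_pow_mul_odd (n := b - a) (by omega)
    have h2 : k ^ (2 ^ j) ∈ D := by
      apply mem_of_odd_pow hG D _ m hm
      rw [← pow_mul, ← hjm]
      exact h1
    have hj : j ≤ hF.toFinset.card := by
      have h3 : 2 ^ j ≤ b - a := by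
        rw [hjm]
        exact Nat.le_mul_of_pos_right _ hm.pos
      have h4 : j < 2 ^ j := Nat.lt_two_pow_self
      omega
    have h5 : 2 ^ hF.toFinset.card = 2 ^ j * 2 ^ (hF.toFinset.card - j) := by
      rw [← pow_add]; congr 1; omega
    rw [h5, pow_mul]
    exact D.pow_mem h2 _
  rcases lt_or_gt_of_ne hab with hlt | hlt
  · exact main a b hlt (by simpa using hb) hfab
  · exact main b a hlt (by simpa using ha) hfab.symm

theorem Dv.root {B : Subgroup G} (hB : Dv B) : ∀ N : ℕ, ∀ b ∈ B, ∃ c ∈ B, c ^ (2 ^ N) = b := by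
  intro N
  induction N with
  | zero => intro b hb; exact ⟨b, hb, by simp⟩
  | succ N ih =>
    intro b hb
    obtain ⟨c, hc, rfl⟩ := ih b hb
    obtain ⟨d, hd, rfl⟩ := hB c hc
    refine ⟨d, hd, ?_⟩
    rw [pow_succ', pow_mul, pow_two]

/-- a divisible subgroup lies in every subgroup of finite index -/
theorem Dv.le (hG : IsPGroup 2 G) {B D K : Subgroup G} (hB : Dv B) (hBK : B ≤ K)
    (hD : Cov D (K : Set G)) : B ≤ D := by
  obtain ⟨N, hN⟩ := hD.pow hG
  intro b hb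
  obtain ⟨c, hc, rfl⟩ := hB.root N b hb
  exact hN c (hBK hc)

/-- a subgroup of a commutative group containing all the involutions and divisible is everything -/
theorem Dv.eq_of_socle (hG : IsPGroup 2 G) {B D : Subgroup G} (hB : Dv B) (hBD : B ≤ D)
    (hD : Cm D) (h : ∀ a ∈ D, a * a = 1 → a ∈ B) : D ≤ B := by
  have key : ∀ n : ℕ, ∀ d ∈ D, d ^ (2 ^ n) = 1 → d ∈ B := by
    intro n
    induction n with
    | zero => intro d _ hd1; simp at hd1; rw [hd1]; exact B.one_mem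
    | succ n ih =>
      intro d hd hd1
      have h1 : d ^ (2 ^ n) ∈ B := by
        apply h _ (D.pow_mem hd _)
        rw [← pow_add, ← two_mul, ← pow_succ']
        exact hd1
      obtain ⟨e, he, hed⟩ := hB.root n _ h1
      have h2 : d * e⁻¹ ∈ B := by
        apply ih _ (D.mul_mem hd (D.inv_mem (hBD he)))
        have hc : Commute d e⁻¹ := hD _ hd _ (D.inv_mem (hBD he))
        rw [hc.mul_pow, inv_pow, hed, mul_inv_cancel]
      have := B.mul_mem h2 he
      simpa using this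
  intro d hd
  obtain ⟨n, hn⟩ := hG d
  exact key n d hd hn

/-- a nontrivial subgroup of a 2-group has an involution -/
theorem exists_invol (hG : IsPGroup 2 G) {u : G} (hu : u ≠ 1) :
    ∃ n : ℕ, u ^ (2 ^ n) ≠ 1 ∧ u ^ (2 ^ n) * u ^ (2 ^ n) = 1 := by
  classical
  have hex := hG u
  set n := Nat.find hex with hn
  have h1 : u ^ (2 ^ n) = 1 := Nat.find_spec hex
  have h0 : n ≠ 0 := by
    intro h0
    rw [h0] at h1
    exact hu (by simpa using h1)
  refine ⟨n - 1, fun h => ?_, ?_⟩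
  · have := Nat.find_min' hex h
    omega
  · rw [← pow_add, ← two_mul, ← pow_succ', show n - 1 + 1 = n by omega]
    exact h1

theorem Dv.bot_of_invol {B : Subgroup G} (hB : Dv B) (h : ∀ b ∈ B, b * b = 1) : B = ⊥ := by
  rw [eq_bot_iff]
  intro b hb
  obtain ⟨c, hc, rfl⟩ := hB b hb
  exact Subgroup.mem_bot.2 (h c hc)

theorem exists_invol_mem (hG : IsPGroup 2 G) {B : Subgroup G} (hB : B ≠ ⊥) :
    ∃ e ∈ B, e ≠ 1 ∧ e * e = 1 := by
  obtain ⟨b, hb, hb1⟩ : ∃ b : G, b ∈ B ∧ b ≠ 1 := by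
    by_contra hcon
    push Not at hcon
    exact hB ((Subgroup.eq_bot_iff_forall B).2 hcon)
  obtain ⟨n, h1, h2⟩ := exists_invol hG hb1
  exact ⟨_, B.pow_mem hb _, h1, h2⟩

end basic

end Run7.h79
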