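import Mathlib
import Pool.Agent.Run7.h79.Basic

/-!
Groups of Chernikov type among 2-groups: existence of the divisible core, extensions, quotients.
-/

set_option autoImplicit false

namespace Run7.h79

open Subgroup

universe u v

section defs

variable {G : Type u} [Group G]

/-- `D` is an abelian divisible subgroup of `K` of finite index with finitely many involutions -/
structure Core (D K : Subgroup G) : Prop where
  le : D ≤ K
  cov : Cov D (K : Set G)
  cm : Cm D
  sc : Sc D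
  dv : Dv D

/-- `K` has an abelian subgroup of finite index with finitely many involutions -/
def CherS (K : Subgroup G) : Prop := ∃ A : Subgroup G, A ≤ K ∧ Cov A (K : Set G) ∧ Cm A ∧ Sc A

/-- the whole group has an abelian subgroup of finite index with finitely many involutions -/
def Cher (G : Type u) [Group G] : Prop := CherS (⊤ : Subgroup G)

theorem Core.cher {D K : Subgroup G} (h : Core D K) : CherS K := ⟨D, h.le, h.cov, h.cm, h.sc⟩

theorem Core.largest (hG : IsPGroup 2 G) {D K B : Subgroup G} (h : Core D K) (hB : Dv B)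
    (hBK : B ≤ K) : B ≤ D := hB.le hG hBK h.cov

theorem Core.unique (hG : IsPGroup 2 G) {D D' K : Subgroup G} (h : Core D K) (h' : Core D' K) :
    D = D' :=
  le_antisymm (h'.largest hG h.dv h.le) (h.largest hG h'.dv h'.le)

theorem CherS.mono {K K' : Subgroup G} (h : CherS K) (hK : K' ≤ K) : CherS K' := by
  obtain ⟨A, _, hcov, hcm, hsc⟩ := h
  refine ⟨A ⊓ K', inf_le_right, ?_, ?_, ?_⟩
  · refine (hcov.inf K').mono ?_
    intro k hk
    exact ⟨hK hk, hk⟩
  · intro a ha b hb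
    exact hcm a ha.1 b hb.1
  · exact hsc.subset (fun a ha => ⟨ha.1.1, ha.2⟩)

theorem Cov.comap {G' : Type v} [Group G'] {D : Subgroup G'} {K : Set G'} (h : Cov D K)
    (f : G →* G') : Cov (D.comap f) (f ⁻¹' K) := by
  classical
  obtain ⟨F, hF, h⟩ := h
  let r : G' → G := fun x => if hx : ∃ k, x⁻¹ * f k ∈ D then hx.choose else 1
  refine ⟨r '' F, hF.image r, ?_⟩
  intro k hk
  obtain ⟨x, hx, hxk⟩ := h (f k) hk
  refine ⟨r x, ⟨x, hx, rfl⟩, ?_⟩
  have hex : ∃ k, x⁻¹ * f k ∈ D := ⟨k, hxk⟩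
  have hr : r x = hex.choose := by simp only [r]; rw [dif_pos hex]
  have h3 := hex.choose_spec
  rw [hr, Subgroup.mem_comap]
  have := D.mul_mem (D.inv_mem h3) hxk
  simpa [mul_assoc] using this

/-- the subgroup of `2^n`-th powers of a commutative subgroup -/
def pw (A : Subgroup G) (hA : Cm A) (n : ℕ) : Subgroup G where
  carrier := {x | ∃ a ∈ A, a ^ (2 ^ n) = x}
  mul_mem' := by
    rintro _ _ ⟨a, ha, rfl⟩ ⟨b, hb, rfl⟩
    exact ⟨a * b, A.mul_mem ha hb, (show Commute a b from hA a ha b hb).mul_pow _⟩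
  one_mem' := ⟨1, A.one_mem, one_pow _⟩
  inv_mem' := by
    rintro _ ⟨a, ha, rfl⟩
    exact ⟨a⁻¹, A.inv_mem ha, inv_pow _ _⟩

theorem finite_fib {S : Set G} {α : Type*} (φ : G → α) (h1 : (φ '' S).Finite)
    {T : Set G} (hT : T.Finite) (h2 : ∀ a ∈ S, ∀ b ∈ S, φ a = φ b → a⁻¹ * b ∈ T) : S.Finite := by
  classical
  let r : α → G := fun a => if ha : ∃ k ∈ S, φ k = a then ha.choose else 1
  refine ((h1.image r).image2 (fun a b => a * b) hT).subset ?_
  intro k hk
  have hex : ∃ k' ∈ S, φ k' = φ k := ⟨k, hk, rfl⟩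
  have hr : r (φ k) = hex.choose := by simp only [r]; rw [dif_pos hex]
  refine ⟨r (φ k), ⟨φ k, ⟨k, hk, rfl⟩, rfl⟩, (r (φ k))⁻¹ * k, ?_, by simp⟩
  rw [hr]
  exact h2 _ hex.choose_spec.1 _ hk hex.choose_spec.2

theorem finite_tors {A : Subgroup G} (hcm : Cm A) (hsc : Sc A) (n : ℕ) :
    {a : G | a ∈ A ∧ a ^ (2 ^ n) = 1}.Finite := by
  induction n with
  | zero =>
    refine (Set.finite_singleton (1 : G)).subset ?_
    rintro a ⟨_, ha⟩
    simpa using ha
  | succ n ih =>
    refine finite_fib (fun a => a * a) (ih.subset ?_) hsc ?_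
    · rintro _ ⟨a, ⟨ha, ha1⟩, rfl⟩
      refine ⟨A.mul_mem ha ha, ?_⟩
      change (a * a) ^ (2 ^ n) = 1
      rw [← pow_two, ← pow_mul, ← pow_succ']
      exact ha1
    · rintro a ⟨ha, _⟩ b ⟨hb, _⟩ hab
      refine ⟨A.mul_mem (A.inv_mem ha) hb, ?_⟩
      have h1 : a * b = b * a := hcm a ha b hb
      have h2 : b * a⁻¹ = a⁻¹ * b := by
        rw [mul_inv_eq_iff_eq_mul, mul_assoc, ← h1, inv_mul_cancel_left]
      have hab : a * a = b * b := hab
      calc a⁻¹ * b * (a⁻¹ * b) = a⁻¹ * (b * a⁻¹) * b := by group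
        _ = a⁻¹ * (a⁻¹ * b) * b := by rw [h2]
        _ = (a * a)⁻¹ * (b * b) := by group
        _ = 1 := by rw [hab]; group

theorem CherS.core (hG : IsPGroup 2 G) {K : Subgroup G} (h : CherS K) :
    ∃ D : Subgroup G, Core D K := by
  classical
  obtain ⟨A, hAK, hcov, hcm, hsc⟩ := h
  let S : ℕ → Set G := fun n => {x | x ∈ pw A hcm n ∧ x * x = 1}
  have hpw : ∀ n, pw A hcm n ≤ A := by
    rintro n _ ⟨a, ha, rfl⟩
    exact A.pow_mem ha _
  have hSf : ∀ n, (S n).Finite := fun n => hsc.subset (fun x hx => ⟨hpw n hx.1, hx.2⟩)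
  have hanti : ∀ n m, n ≤ m → S m ⊆ S n := by
    rintro n m hnm _ ⟨⟨a, ha, rfl⟩, hx⟩
    refine ⟨⟨a ^ (2 ^ (m - n)), A.pow_mem ha _, ?_⟩, hx⟩
    rw [← pow_mul, ← pow_add]
    congr 2
    omega
  have hex : ∃ m, ∃ n, (S n).ncard = m := ⟨_, 0, rfl⟩
  obtain ⟨n0, hn0⟩ := Nat.find_spec hex
  have hstab : ∀ n, n0 ≤ n → S n = S n0 := by
    intro n hn
    refine Set.eq_of_subset_of_ncard_le (hanti _ _ hn) ?_ (hSf n0)
    rw [hn0]
    exact Nat.find_min' hex ⟨n, rfl⟩
  set B := pw A hcm n0 with hB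
  have hBcm : Cm B := fun a ha b hb => hcm a (hpw _ ha) b (hpw _ hb)
  have hdv : ∀ l : ℕ, ∀ b ∈ B, b ^ (2 ^ l) = 1 → ∃ c ∈ B, c * c = b := by
    intro l
    induction l with
    | zero => intro b _ hb1; exact ⟨1, B.one_mem, by simpa using hb1.symm⟩
    | succ l ih =>
      intro b hb hb1
      have hv : b ^ (2 ^ l) ∈ S n0 := by
        refine ⟨B.pow_mem hb _, ?_⟩
        rw [← pow_add, ← two_mul, ← pow_succ']
        exact hb1
      rw [← hstab (n0 + l + 1) (by omega)] at hv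
      obtain ⟨⟨a, ha, hav⟩, _⟩ := hv
      have hb' : a ^ (2 ^ n0) ∈ B := ⟨a, ha, rfl⟩
      set b' := a ^ (2 ^ n0) with hb'def
      have h1 : b' ^ (2 ^ (l + 1)) = b ^ (2 ^ l) := by
        rw [hb'def, ← pow_mul, ← pow_add, ← hav]
        congr 2
      have hcc : Commute b (b' * b')⁻¹ :=
        hBcm _ hb _ (B.inv_mem (B.mul_mem hb' hb'))
      obtain ⟨c, hc, hcb⟩ := ih (b * (b' * b')⁻¹) (B.mul_mem hb (B.inv_mem (B.mul_mem hb' hb')))
        (by
          rw [hcc.mul_pow, inv_pow, ← pow_two, ← pow_mul, ← pow_succ', h1, mul_inv_cancel])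
      refine ⟨c * b', B.mul_mem hc hb', ?_⟩
      have h2 : b' * c = c * b' := hBcm _ hb' _ hc
      calc c * b' * (c * b') = c * (b' * c) * b' := by group
        _ = c * (c * b') * b' := by rw [h2]
        _ = c * c * (b' * b') := by group
        _ = b := by rw [hcb]; group
  have hBdv : Dv B := by
    intro b hb
    obtain ⟨l, hl⟩ := hG b
    exact hdv l b hb hl
  refine ⟨B, (hpw n0).trans hAK, ?_, hBcm, hsc.subset (fun x hx => ⟨hpw n0 hx.1, hx.2⟩), hBdv⟩
  refine hcov.trans ?_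
  refine ⟨{a : G | a ∈ A ∧ a ^ (2 ^ n0) = 1}, finite_tors hcm hsc n0, ?_⟩
  intro a ha
  obtain ⟨b, hb, hba⟩ := hBdv.root n0 (a ^ (2 ^ n0)) ⟨a, ha, rfl⟩
  refine ⟨a * b⁻¹, ⟨A.mul_mem ha (A.inv_mem (hpw _ hb)), ?_⟩, ?_⟩
  · have hc : Commute a b⁻¹ := hcm _ ha _ (A.inv_mem (hpw _ hb))
    rw [hc.mul_pow, inv_pow, hba, mul_inv_cancel]
  · simpa using hb

/-- transfer from the group `K` to the subgroup `K` -/
theorem Cher.toS {K : Subgroup G} (h : Cher K) : CherS K := by
  obtain ⟨A, _, hcov, hcm, hsc⟩ := h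
  refine ⟨A.map K.subtype, Subgroup.map_subtype_le A, ?_, ?_, ?_⟩
  · refine (hcov.map K.subtype).mono ?_
    intro k hk
    exact ⟨⟨k, hk⟩, trivial, rfl⟩
  · rintro _ ⟨a, ha, rfl⟩ _ ⟨b, hb, rfl⟩
    have := hcm a ha b hb
    simpa using congrArg (K.subtype) this
  · refine (hsc.image K.subtype).subset ?_
    rintro _ ⟨⟨a, ha, rfl⟩, ha2⟩
    refine ⟨a, ⟨ha, ?_⟩, rfl⟩
    exact Subtype.ext (by simpa using ha2)

theorem CherS.toCher {K : Subgroup G} (h : CherS K) : Cher K := by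
  obtain ⟨A, hAK, hcov, hcm, hsc⟩ := h
  refine ⟨A.comap K.subtype, le_top, ?_, ?_, ?_⟩
  · refine (hcov.comap K.subtype).mono ?_
    intro k _
    exact k.2
  · intro a ha b hb
    exact Subtype.ext (hcm a ha b hb)
  · refine Set.Finite.of_finite_image (f := K.subtype) (hsc.subset ?_) K.subtype_injective.injOn
    rintro _ ⟨a, ⟨ha, ha2⟩, rfl⟩
    exact ⟨ha, by simpa using congrArg K.subtype ha2⟩

theorem Core.comap_subtype {D L K : Subgroup G} (h : Core D L) (hDK : D ≤ K) :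
    Core (D.comap K.subtype) (L.comap K.subtype) := by
  refine ⟨Subgroup.comap_mono h.le, (h.cov.comap K.subtype).mono (fun k hk => hk), ?_, ?_, ?_⟩
  · intro a ha b hb
    exact Subtype.ext (h.cm a ha b hb)
  · refine Set.Finite.of_finite_image (f := K.subtype) (h.sc.subset ?_) K.subtype_injective.injOn
    rintro _ ⟨a, ⟨ha, ha2⟩, rfl⟩
    exact ⟨ha, by simpa using congrArg K.subtype ha2⟩
  · intro d hd
    obtain ⟨e, he, hed⟩ := h.dv d hd
    exact ⟨⟨e, hDK he⟩, he, Subtype.ext hed⟩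

/-- conjugate subgroup -/
def cj (h : G) (D : Subgroup G) : Subgroup G := D.map (MulAut.conj h).toMonoidHom

theorem mem_cj {h x : G} {D : Subgroup G} : x ∈ cj h D ↔ h⁻¹ * x * h ∈ D := by
  constructor
  · rintro ⟨d, hd, rfl⟩
    simpa [mul_assoc] using hd
  · intro hx
    exact ⟨_, hx, by simp [mul_assoc]⟩

theorem cj_mono {h : G} {D D' : Subgroup G} (hD : D ≤ D') : cj h D ≤ cj h D' :=
  Subgroup.map_mono hD

theorem Dv.cj {h : G} {D : Subgroup G} (hD : Dv D) : Dv (cj h D) := by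
  intro d hd
  rw [mem_cj] at hd
  obtain ⟨e, he, hed⟩ := hD _ hd
  refine ⟨h * e * h⁻¹, ?_, ?_⟩
  · rw [mem_cj]; simpa [mul_assoc] using he
  · calc h * e * h⁻¹ * (h * e * h⁻¹) = h * (e * e) * h⁻¹ := by group
      _ = d := by rw [hed]; group

theorem Cm.cj {h : G} {D : Subgroup G} (hD : Cm D) : Cm (cj h D) := by
  intro a ha b hb
  rw [mem_cj] at ha hb
  have := hD _ ha _ hb
  calc a * b = h * ((h⁻¹ * a * h) * (h⁻¹ * b * h)) * h⁻¹ := by group
    _ = h * ((h⁻¹ * b * h) * (h⁻¹ * a * h)) * h⁻¹ := by rw [this]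
    _ = b * a := by group

theorem Core.cj {h : G} {D K : Subgroup G} (hD : Core D K) : Core (cj h D) (cj h K) := by
  refine ⟨cj_mono hD.le, ?_, hD.cm.cj, ?_, hD.dv.cj⟩
  · refine (hD.cov.map (MulAut.conj h).toMonoidHom).mono ?_
    intro x hx
    exact hx
  · refine (hD.sc.image (fun x => h * x * h⁻¹)).subset ?_
    rintro x ⟨hx, hx2⟩
    rw [mem_cj] at hx
    refine ⟨h⁻¹ * x * h, ⟨hx, ?_⟩, by group⟩
    calc h⁻¹ * x * h * (h⁻¹ * x * h) = h⁻¹ * (x * x) * h := by group
      _ = 1 := by rw [hx2]; group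

end defs

section ext

variable {G : Type u} [Group G]

theorem comm_pow_right {a c k : G} (h : a * c = k * c * a) (hkc : k * c = c * k)
    (n : ℕ) : a * c ^ n = k ^ n * c ^ n * a := by
  induction n with
  | zero => simp
  | succ n ih =>
    have h1 : c ^ n * k = k * c ^ n := ((show Commute k c from hkc).pow_right n).eq.symm
    calc a * c ^ (n + 1) = a * c ^ n * c := by rw [pow_succ, mul_assoc]
      _ = k ^ n * c ^ n * (a * c) := by rw [ih]; group
      _ = k ^ n * (c ^ n * k) * c * a := by rw [h]; group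
      _ = k ^ (n + 1) * c ^ (n + 1) * a := by rw [h1, pow_succ k, pow_succ c]; group

theorem comm_pow_left {a c k : G} (h : a * c = k * c * a) (hka : k * a = a * k)
    (n : ℕ) : a ^ n * c = k ^ n * c * a ^ n := by
  induction n with
  | zero => simp
  | succ n ih =>
    have h1 : a * k ^ n = k ^ n * a := ((show Commute a k from hka.symm).pow_right n).eq
    calc a ^ (n + 1) * c = a * (a ^ n * c) := by rw [pow_succ', mul_assoc]
      _ = (a * k ^ n) * c * a ^ n := by rw [ih]; group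
      _ = k ^ n * (a * c) * a ^ n := by rw [h1]; group
      _ = k ^ (n + 1) * c * a ^ (n + 1) := by rw [h, pow_succ k, pow_succ' a]; group

theorem ext_lemma (hG : IsPGroup 2 G) (N : Subgroup G) [N.Normal]
    {Ab : Subgroup (G ⧸ N)} (hAb : Core Ab ⊤) (A : Subgroup G)
    (h1 : A ≤ Ab.comap (QuotientGroup.mk' N)) (h2 : Ab ≤ A.map (QuotientGroup.mk' N))
    (h3 : ∀ a ∈ A, ∀ n ∈ N, a * n = n * a) (h4 : Cov A Set.univ) (h5 : Sc N) : Cher G := by
  refine ⟨A, le_top, h4.mono (fun _ _ => trivial), ?_, ?_⟩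
  · intro a ha b hb
    obtain ⟨n, hn⟩ := hG a
    obtain ⟨cb, hcb, hcbb⟩ := hAb.dv.root n _ (h1 hb)
    obtain ⟨c, hc, rfl⟩ := h2 hcb
    have hν : (c ^ (2 ^ n))⁻¹ * b ∈ N := by
      rw [← QuotientGroup.eq]
      simpa using hcbb
    have hk : a * c * a⁻¹ * c⁻¹ ∈ N := by
      have hac := hAb.cm _ (h1 ha) _ (h1 hc)
      rw [← QuotientGroup.eq_one_iff]
      change (QuotientGroup.mk' N) (a * c * a⁻¹ * c⁻¹) = 1
      rw [map_mul, map_mul, map_mul, hac, map_inv, map_inv]
      group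
    set k := a * c * a⁻¹ * c⁻¹ with hkdef
    have hac : a * c = k * c * a := by rw [hkdef]; group
    have hka : k * a = a * k := (h3 a ha k hk).symm
    have hkc : k * c = c * k := (h3 c hc k hk).symm
    have e1 := comm_pow_left hac hka (2 ^ n)
    rw [hn] at e1
    have hk1 : k ^ (2 ^ n) = 1 := by
      have : c = k ^ (2 ^ n) * c := by simpa using e1
      exact (mul_eq_right.1 this.symm)
    have e2 := comm_pow_right hac hkc (2 ^ n)
    rw [hk1, one_mul] at e2
    have e3 := h3 a ha _ hν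
    calc a * b = a * c ^ (2 ^ n) * ((c ^ (2 ^ n))⁻¹ * b) := by group
      _ = c ^ (2 ^ n) * (a * ((c ^ (2 ^ n))⁻¹ * b)) := by rw [e2]; group
      _ = b * a := by rw [e3]; group
  · refine finite_fib (fun a => (QuotientGroup.mk' N a)) (hAb.sc.subset ?_) h5 ?_
    · rintro _ ⟨a, ⟨ha, ha2⟩, rfl⟩
      refine ⟨h1 ha, ?_⟩
      rw [← map_mul, ha2, map_one]
    · rintro a ⟨ha, ha2⟩ b ⟨hb, hb2⟩ hab
      have hn : a⁻¹ * b ∈ N := QuotientGroup.eq.1 hab
      refine ⟨hn, ?_⟩
      have hb' : b * (a⁻¹ * b) = a⁻¹ * b * b := h3 b hb _ hn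
      calc a⁻¹ * b * (a⁻¹ * b) = a⁻¹ * (b * (a⁻¹ * b)) := by group
        _ = a⁻¹ * (a⁻¹ * b * b) := by rw [hb']
        _ = (a * a)⁻¹ * (b * b) := by group
        _ = 1 := by rw [ha2, hb2]; group

theorem cher_of_div_normal (hG : IsPGroup 2 G) (D : Subgroup G) [D.Normal] (hcm : Cm D)
    (hsc : Sc D) (h : Cher (G ⧸ D)) : Cher G := by
  obtain ⟨Ab, hAb⟩ := CherS.core (hG.to_quotient D) h
  refine ext_lemma hG D hAb (Ab.comap (QuotientGroup.mk' D)) le_rfl ?_ ?_ ?_ hsc
  · rw [Subgroup.map_comap_eq_self_of_surjective (QuotientGroup.mk'_surjective D)]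
  · intro a ha d hd
    have hcov : Cov (Subgroup.centralizer {d}) Set.univ := by
      obtain ⟨n, hn⟩ := hG d
      refine Cov.of_fiber (fun g => g * d * g⁻¹) ((finite_tors hcm hsc n).subset ?_) ?_
      · rintro _ ⟨g, _, rfl⟩
        refine ⟨‹D.Normal›.conj_mem d hd g, ?_⟩
        simp [hn]
      · intro g _ g' _ hgg
        have hgg : g * d * g⁻¹ = g' * d * g'⁻¹ := hgg
        rw [Subgroup.mem_centralizer_singleton_iff]
        calc g⁻¹ * g' * d = g⁻¹ * (g' * d * g'⁻¹) * g' := by group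
          _ = g⁻¹ * (g * d * g⁻¹) * g' := by rw [hgg]
          _ = d * (g⁻¹ * g') := by group
    have h2 : Ab ≤ (Subgroup.centralizer {d}).map (QuotientGroup.mk' D) := by
      refine hAb.dv.le (hG.to_quotient D) (K := ⊤) le_top ?_
      refine (hcov.map (QuotientGroup.mk' D)).mono ?_
      intro x _
      obtain ⟨g, rfl⟩ := QuotientGroup.mk'_surjective D x
      exact ⟨g, trivial, rfl⟩
    obtain ⟨c, hc, hca⟩ := h2 ha
    have hca' : c⁻¹ * a ∈ D := QuotientGroup.eq.1 hca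
    have hc' := Subgroup.mem_centralizer_singleton_iff.1 hc
    have e := hcm _ hca' _ hd
    calc a * d = c * (c⁻¹ * a * d) := by group
      _ = c * d * (c⁻¹ * a) := by rw [e]; group
      _ = d * a := by rw [hc']; group
  · refine (hAb.cov.comap (QuotientGroup.mk' D)).mono ?_
    intro x _
    trivial

theorem cher_of_fin_normal (hG : IsPGroup 2 G) (N : Subgroup G) [N.Normal]
    (hN : (N : Set G).Finite) (h : Cher (G ⧸ N)) : Cher G := by
  obtain ⟨Ab, hAb⟩ := CherS.core (hG.to_quotient N) h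
  have hcovC : Cov (Subgroup.centralizer (N : Set G)) Set.univ := by
    have : Finite N := hN
    refine Cov.of_fiber (fun (g : G) (n : N) => (⟨g * n.1 * g⁻¹, ‹N.Normal›.conj_mem n.1 n.2 g⟩ : N))
      (Set.toFinite _) ?_
    intro g _ g' _ hgg
    rw [Subgroup.mem_centralizer_iff]
    intro n hn
    have := congrArg Subtype.val (congrFun hgg ⟨n, hn⟩)
    simp only at this
    calc n * (g⁻¹ * g') = g⁻¹ * (g * n * g⁻¹) * g' := by group
      _ = g⁻¹ * (g' * n * g'⁻¹) * g' := by rw [this]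
      _ = g⁻¹ * g' * n := by group
  have hcov1 : Cov (Ab.comap (QuotientGroup.mk' N)) Set.univ :=
    (hAb.cov.comap (QuotientGroup.mk' N)).mono (fun x _ => trivial)
  set A := Subgroup.centralizer (N : Set G) ⊓ Ab.comap (QuotientGroup.mk' N) with hA
  have hcovA : Cov A Set.univ := by
    refine hcov1.trans ?_
    refine (hcovC.inf (Ab.comap (QuotientGroup.mk' N))).mono ?_
    intro x hx
    exact ⟨trivial, hx⟩
  refine ext_lemma hG N hAb A inf_le_right ?_ ?_ hcovA (hN.subset (fun x hx => hx.1))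
  · refine hAb.dv.le (hG.to_quotient N) (K := ⊤) le_top ?_
    refine (hcovA.map (QuotientGroup.mk' N)).mono ?_
    intro x _
    obtain ⟨g, rfl⟩ := QuotientGroup.mk'_surjective N x
    exact ⟨g, trivial, rfl⟩
  · intro a ha n hn
    exact (Subgroup.mem_centralizer_iff.1 ha.1 n hn).symm

theorem cher_of_finite [Finite G] : Cher G :=
  ⟨⊥, bot_le, ⟨Set.univ, Set.finite_univ, fun k _ => ⟨k, trivial, by simp⟩⟩,
    fun a ha b hb => by rw [Subgroup.mem_bot.1 ha, Subgroup.mem_bot.1 hb],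
    (Set.finite_singleton (1 : G)).subset (fun x hx => Subgroup.mem_bot.1 hx.1)⟩

/-- a finitely generated 2-group with an abelian subgroup of finite index is finite -/
theorem finite_of_comm_fg (hG : IsPGroup 2 G) [Group.FG G] (A : Subgroup G)
    (hcov : Cov A Set.univ) (hcm : Cm A) : Finite G := by
  have hidx : A.index ≠ 0 := Cov.index hcov
  have : A.FiniteIndex := ⟨hidx⟩
  have : Group.FG A := Subgroup.fg_of_index_ne_zero A
  let _ : CommGroup A := { (inferInstance : Group A) with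
    mul_comm := fun a b => Subtype.ext (hcm a.1 a.2 b.1 b.2) }
  have htors : IsMulTorsion A := by
    intro a
    obtain ⟨n, hn⟩ := hG.to_subgroup A a
    exact isOfFinOrder_iff_pow_eq_one.2 ⟨2 ^ n, by positivity, hn⟩
  have hfin : Finite A := CommGroup.finite_of_fg_isMulTorsion A htors
  have h1 : (Set.univ : Set G).Finite := Cov.finite hcov (Set.toFinite (A : Set G))
  exact Set.finite_univ_iff.1 h1

/-- a finitely generated 2-group of Chernikov type is finite -/
theorem finite_of_cher_fg (hG : IsPGroup 2 G) [Group.FG G] (h : Cher G) : Finite G := by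
  obtain ⟨A, _, hcov, hcm, _⟩ := h
  exact finite_of_comm_fg hG A (hcov.mono (fun _ _ => trivial)) hcm

end ext

end Run7.h79
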