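import Mathlib
import Pool.Agent.Run7.h79.Cher

/-!
An involution with finite centralizer in a 2-group: the group is of Chernikov type.
-/

set_option autoImplicit false

namespace Run7.h79

open Subgroup

universe u v

section transversal

variable {ι : Type u} {α : Type v}

/-- `T` meets every member of the family -/
def IsTr (E : ι → Set α) (T : Finset α) : Prop := ∀ i, ∃ x ∈ T, x ∈ E i

theorem fin_tr [DecidableEq α] (E : ι → Set α) (hfin : ∀ i, (E i).Finite) (τ : ℕ)
    (hmin : ∀ T : Finset α, T.card < τ → ¬ IsTr E T) :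
    ∀ k : ℕ, ∀ S : Finset α, S.card + k = τ →
      {T : Finset α | IsTr E T ∧ T.card = τ ∧ S ⊆ T}.Finite := by
  intro k
  induction k with
  | zero =>
    intro S hS
    refine (Set.finite_singleton S).subset ?_
    rintro T ⟨_, hT, hST⟩
    exact (Finset.eq_of_subset_of_card_le hST (by omega)).symm
  | succ k ih =>
    intro S hS
    have h1 := hmin S (by omega)
    unfold IsTr at h1
    push Not at h1
    obtain ⟨i, hi⟩ := h1
    refine (Set.Finite.biUnion (hfin i) (t := fun x =>
      {T : Finset α | (IsTr E T ∧ T.card = τ ∧ insert x S ⊆ T) ∧ x ∉ S}) ?_).subset ?_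
    · intro x hx
      by_cases hxS : x ∈ S
      · refine Set.Finite.subset Set.finite_empty ?_
        rintro T ⟨_, h⟩
        exact absurd hxS h
      · refine (ih (insert x S) ?_).subset (fun T hT => hT.1)
        rw [Finset.card_insert_of_notMem hxS]
        omega
    · rintro T ⟨hT, hTc, hST⟩
      obtain ⟨x, hxT, hxE⟩ := hT i
      refine Set.mem_biUnion hxE ⟨⟨hT, hTc, ?_⟩, fun hxS => hi x hxS hxE⟩
      exact Finset.insert_subset hxT hST

/-- A pairwise intersecting family of finite sets has a finite transversal which is invariant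
under all the symmetries of the family. -/
theorem exists_invariant_transversal [Nonempty ι] (E : ι → Set α) (hfin : ∀ i, (E i).Finite)
    (hint : ∀ i j, (E i ∩ E j).Nonempty) :
    ∃ W : Set α, W.Finite ∧ (∀ i, ∃ x ∈ W, x ∈ E i) ∧
      ∀ e : α → α, Function.Injective e → (∀ j, ∃ i, ∀ x ∈ E i, e x ∈ E j) →
        ∀ x ∈ W, e x ∈ W := by
  classical
  obtain ⟨i0⟩ := ‹Nonempty ι›
  have hex : ∃ n, ∃ T : Finset α, IsTr E T ∧ T.card = n := by
    refine ⟨_, (hfin i0).toFinset, ?_, rfl⟩
    intro i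
    obtain ⟨x, hx0, hx⟩ := hint i0 i
    exact ⟨x, by simpa using hx0, hx⟩
  obtain ⟨T0, hT0, hT0c⟩ := Nat.find_spec hex
  set τ := Nat.find hex with hτ
  have hmin : ∀ T : Finset α, T.card < τ → ¬ IsTr E T := by
    intro T hT hTr
    exact Nat.find_min hex hT ⟨T, hTr, rfl⟩
  have hfinT := fin_tr E hfin τ hmin τ ∅ (by simp)
  refine ⟨⋃ T ∈ {T : Finset α | IsTr E T ∧ T.card = τ ∧ ∅ ⊆ T}, (T : Set α),
    hfinT.biUnion (fun T _ => T.finite_toSet), ?_, ?_⟩
  · intro i
    obtain ⟨x, hx, hxE⟩ := hT0 i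
    exact ⟨x, Set.mem_biUnion (show T0 ∈ _ from ⟨hT0, hT0c, Finset.empty_subset _⟩)
      (by simpa using hx), hxE⟩
  · intro e he hE x hx
    simp only [Set.mem_iUnion, exists_prop] at hx
    obtain ⟨T, ⟨hT, hTc, _⟩, hxT⟩ := hx
    refine Set.mem_biUnion (x := T.image e) ⟨?_, ?_, Finset.empty_subset _⟩ ?_
    · intro j
      obtain ⟨i, hi⟩ := hE j
      obtain ⟨y, hy, hyE⟩ := hT i
      exact ⟨e y, Finset.mem_image_of_mem e hy, hi y hyE⟩
    · rw [Finset.card_image_of_injective _ he]
      exact hTc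
    · exact_mod_cast Finset.mem_image_of_mem e (by exact_mod_cast hxT)

end transversal

section groups

variable {G : Type u} [Group G]

/-- Dietzmann's lemma for 2-groups -/
theorem dietzmann (hG : IsPGroup 2 G) (W : Set G) (hW : W.Finite)
    (hinv : ∀ g : G, ∀ x ∈ W, g * x * g⁻¹ ∈ W) :
    ((Subgroup.closure W : Subgroup G) : Set G).Finite := by
  have hfW : Finite W := hW
  have hcovC : Cov (Subgroup.centralizer W) Set.univ := by
    refine Cov.of_fiber (fun (g : G) (n : W) => (⟨g * n.1 * g⁻¹, hinv g n.1 n.2⟩ : W))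
      (Set.toFinite _) ?_
    intro g _ g' _ hgg
    rw [Subgroup.mem_centralizer_iff]
    intro n hn
    have := congrArg Subtype.val (congrFun hgg ⟨n, hn⟩)
    simp only at this
    calc n * (g⁻¹ * g') = g⁻¹ * (g * n * g⁻¹) * g' := by group
      _ = g⁻¹ * (g' * n * g'⁻¹) * g' := by rw [this]
      _ = g⁻¹ * g' * n := by group
  have hFG : Group.FG (Subgroup.closure W) :=
    (Group.fg_iff_subgroup_fg _).2 ⟨hW.toFinset, by simp⟩
  have hcm : Cm ((Subgroup.centralizer W).comap (Subgroup.closure W).subtype) := by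
    intro a ha b hb
    apply Subtype.ext
    have h1 : Subgroup.closure W ≤ Subgroup.centralizer {(a : G)} := by
      rw [Subgroup.closure_le]
      intro g hg
      exact Subgroup.mem_centralizer_singleton_iff.2 (Subgroup.mem_centralizer_iff.1 ha g hg)
    exact (Subgroup.mem_centralizer_singleton_iff.1 (h1 b.2)).symm
  have hfin := finite_of_comm_fg (hG.to_subgroup (Subgroup.closure W)) _
    ((hcovC.comap (Subgroup.closure W).subtype).mono (fun x _ => trivial)) hcm
  exact hfin

/-- two involutions in a 2-group commute with a common involution -/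
theorem exists_common_invol (hG : IsPGroup 2 G) (a b : G) (haa : a * a = 1) (hbb : b * b = 1)
    (ha1 : a ≠ 1) : ∃ z : G, z ≠ 1 ∧ z * z = 1 ∧ z * a = a * z ∧ z * b = b * z := by
  by_cases hab : a = b
  · exact ⟨a, ha1, haa, rfl, by rw [hab]⟩
  · have hu : a * b ≠ 1 := by
      intro h0
      apply hab
      calc a = a * (b * b) := by rw [hbb, mul_one]
        _ = (a * b) * b := by group
        _ = b := by rw [h0, one_mul]
    obtain ⟨n, hn1, hn2⟩ := exists_invol hG hu
    set z := (a * b) ^ (2 ^ n) with hz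
    have hzinv : z⁻¹ = z := by rw [inv_eq_iff_mul_eq_one]; exact hn2
    have hainv : a⁻¹ = a := by rw [inv_eq_iff_mul_eq_one]; exact haa
    have hbinv : b⁻¹ = b := by rw [inv_eq_iff_mul_eq_one]; exact hbb
    have h1 : a * (a * b) * a⁻¹ = (a * b)⁻¹ := by
      rw [mul_inv_rev, hainv, hbinv]
      calc a * (a * b) * a = (a * a) * b * a := by group
        _ = b * a := by rw [haa, one_mul]
    have h2 : b * (a * b) * b⁻¹ = (a * b)⁻¹ := by
      rw [mul_inv_rev, hainv, hbinv]
      calc b * (a * b) * b = b * a * (b * b) := by group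
        _ = b * a := by rw [hbb, mul_one]
    have h3 : a * z * a⁻¹ = z := by
      rw [hz, ← conj_pow, h1, inv_pow, ← hz, hzinv]
    have h4 : b * z * b⁻¹ = z := by
      rw [hz, ← conj_pow, h2, inv_pow, ← hz, hzinv]
    exact ⟨z, hn1, hn2, (mul_inv_eq_iff_eq_mul.1 h3).symm, (mul_inv_eq_iff_eq_mul.1 h4).symm⟩

/-- in an infinite 2-group with an involution with finite centralizer there is a finite nonempty
invariant set of nontrivial elements -/
theorem exists_finite_invariant (hG : IsPGroup 2 G) (i : G) (hi : i * i = 1) (hi1 : i ≠ 1)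
    (hC : ((Subgroup.centralizer {i} : Subgroup G) : Set G).Finite) :
    ∃ W : Set G, W.Finite ∧ W.Nonempty ∧ (∀ x ∈ W, x ≠ 1) ∧ ∀ g : G, ∀ x ∈ W, g * x * g⁻¹ ∈ W := by
  let E : G → Set G := fun h =>
    {z | z ≠ 1 ∧ z * z = 1 ∧ z * (h * i * h⁻¹) = (h * i * h⁻¹) * z}
  have hfin : ∀ h, (E h).Finite := by
    intro h
    refine (hC.image (fun x => h * x * h⁻¹)).subset ?_
    rintro z ⟨_, _, hz⟩
    refine ⟨h⁻¹ * z * h, ?_, by group⟩
    change h⁻¹ * z * h ∈ Subgroup.centralizer {i}
    rw [Subgroup.mem_centralizer_singleton_iff]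
    calc h⁻¹ * z * h * i = h⁻¹ * (z * (h * i * h⁻¹)) * h := by group
      _ = h⁻¹ * ((h * i * h⁻¹) * z) * h := by rw [hz]
      _ = i * (h⁻¹ * z * h) := by group
  have hint : ∀ h k, (E h ∩ E k).Nonempty := by
    intro h k
    have haa : ∀ h : G, h * i * h⁻¹ * (h * i * h⁻¹) = 1 := by
      intro h
      calc h * i * h⁻¹ * (h * i * h⁻¹) = h * (i * i) * h⁻¹ := by group
        _ = 1 := by rw [hi]; group
    have ha1 : h * i * h⁻¹ ≠ 1 := by
      intro h0
      apply hi1
      calc i = h⁻¹ * (h * i * h⁻¹) * h := by group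
        _ = 1 := by rw [h0]; group
    obtain ⟨z, h1, h2, h3, h4⟩ := exists_common_invol hG _ _ (haa h) (haa k) ha1
    exact ⟨z, ⟨h1, h2, h3⟩, ⟨h1, h2, h4⟩⟩
  obtain ⟨W, hW, hW1, hW2⟩ := exists_invariant_transversal E hfin hint
  refine ⟨W ∩ {x | x ≠ 1}, hW.subset Set.inter_subset_left, ?_, fun x hx => hx.2, ?_⟩
  · obtain ⟨x, hx, hxE⟩ := hW1 1
    exact ⟨x, hx, hxE.1⟩
  · rintro g x ⟨hx, hx1⟩
    refine ⟨hW2 (fun x => g * x * g⁻¹) ?_ ?_ x hx, ?_⟩
    · intro a b hab
      have hab : g * a * g⁻¹ = g * b * g⁻¹ := hab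
      simpa using hab
    · intro h
      refine ⟨g⁻¹ * h, ?_⟩
      rintro z ⟨hz1, hz2, hz3⟩
      refine ⟨?_, ?_, ?_⟩
      · simpa using hz1
      · calc g * z * g⁻¹ * (g * z * g⁻¹) = g * (z * z) * g⁻¹ := by group
          _ = 1 := by rw [hz2]; group
      · calc g * z * g⁻¹ * (h * i * h⁻¹) = g * (z * (g⁻¹ * h * i * (g⁻¹ * h)⁻¹)) * g⁻¹ := by group
          _ = g * ((g⁻¹ * h * i * (g⁻¹ * h)⁻¹) * z) * g⁻¹ := by rw [hz3]
          _ = h * i * h⁻¹ * (g * z * g⁻¹) := by group
    · intro h0
      apply hx1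
      simpa using h0

/-- finite centralizers survive in quotients by finite normal subgroups -/
theorem finite_centralizer_quot (N : Subgroup G) [N.Normal] (hN : (N : Set G).Finite) (i : G)
    (hC : ((Subgroup.centralizer {i} : Subgroup G) : Set G).Finite) :
    ((Subgroup.centralizer {(QuotientGroup.mk' N i)} : Subgroup (G ⧸ N)) : Set (G ⧸ N)).Finite := by
  have hY : {y : G | y * i * y⁻¹ * i⁻¹ ∈ N}.Finite := by
    refine finite_fib (fun y => y * i * y⁻¹) ((hN.image (fun n => n * i)).subset ?_) hC ?_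
    · rintro _ ⟨y, hy, rfl⟩
      exact ⟨_, hy, by simp⟩
    · intro a _ b _ hab
      have hab : a * i * a⁻¹ = b * i * b⁻¹ := hab
      change a⁻¹ * b ∈ Subgroup.centralizer {i}
      rw [Subgroup.mem_centralizer_singleton_iff]
      calc a⁻¹ * b * i = a⁻¹ * (b * i * b⁻¹) * b := by group
        _ = a⁻¹ * (a * i * a⁻¹) * b := by rw [hab]
        _ = i * (a⁻¹ * b) := by group
  refine (hY.image (QuotientGroup.mk' N)).subset ?_
  intro q hq
  obtain ⟨y, rfl⟩ := QuotientGroup.mk'_surjective N q
  refine ⟨y, ?_, rfl⟩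
  have hq' := Subgroup.mem_centralizer_singleton_iff.1 hq
  change y * i * y⁻¹ * i⁻¹ ∈ N
  rw [← QuotientGroup.eq_one_iff]
  change (QuotientGroup.mk' N) (y * i * y⁻¹ * i⁻¹) = 1
  rw [map_mul, map_mul, map_mul, map_inv, map_inv, hq']
  group

theorem card_lt_quot (N : Subgroup G) [N.Normal] (hN : (N : Set G).Finite) (i : G)
    (hi : i * i = 1)
    (hC : ((Subgroup.centralizer {i} : Subgroup G) : Set G).Finite)
    (n0 : G) (hn0 : n0 ∈ N) (hne : (i * n0) * (i * n0) ≠ 1) :
    Nat.card (Subgroup.centralizer {(QuotientGroup.mk' N i)} : Subgroup (G ⧸ N)) <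
      Nat.card (Subgroup.centralizer {i} : Subgroup G) := by
  classical
  have hfC : Finite (Subgroup.centralizer {i} : Subgroup G) := hC
  have hfN : Finite N := hN
  have hfCb : Finite (Subgroup.centralizer {(QuotientGroup.mk' N i)} : Subgroup (G ⧸ N)) :=
    finite_centralizer_quot N hN i hC
  let ψ : G → G := fun y => i * (y * i * y⁻¹)
  have hψ : ∀ y : G, (QuotientGroup.mk' N y) ∈
      (Subgroup.centralizer {(QuotientGroup.mk' N i)} : Subgroup (G ⧸ N)) → ψ y ∈ N := by
    intro y hy
    have hy' := Subgroup.mem_centralizer_singleton_iff.1 hy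
    rw [← QuotientGroup.eq_one_iff]
    change (QuotientGroup.mk' N) (i * (y * i * y⁻¹)) = 1
    rw [map_mul, map_mul, map_mul, map_inv, hy']
    calc (QuotientGroup.mk' N) i * ((QuotientGroup.mk' N) i * (QuotientGroup.mk' N) y *
          ((QuotientGroup.mk' N) y)⁻¹) = (QuotientGroup.mk' N) i * (QuotientGroup.mk' N) i := by group
      _ = 1 := by rw [← map_mul, hi, map_one]
  have hψne : ∀ y : G, ψ y ≠ n0 := by
    intro y hy
    apply hne
    rw [← hy]
    change i * (i * (y * i * y⁻¹)) * (i * (i * (y * i * y⁻¹))) = 1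
    calc i * (i * (y * i * y⁻¹)) * (i * (i * (y * i * y⁻¹)))
        = (i * i) * (y * i * y⁻¹) * (i * i) * (y * i * y⁻¹) := by simp only [mul_assoc]
      _ = (y * i * y⁻¹) * (y * i * y⁻¹) := by rw [hi]; simp only [one_mul, mul_one]
      _ = y * (i * i) * y⁻¹ := by group
      _ = 1 := by rw [hi]; group
  have hψC : ∀ a b : G, ψ a = ψ b → a⁻¹ * b ∈ Subgroup.centralizer {i} := by
    intro a b hab
    have hab : a * i * a⁻¹ = b * i * b⁻¹ := mul_left_cancel hab
    rw [Subgroup.mem_centralizer_singleton_iff]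
    calc a⁻¹ * b * i = a⁻¹ * (b * i * b⁻¹) * b := by group
      _ = a⁻¹ * (a * i * a⁻¹) * b := by rw [hab]
      _ = i * (a⁻¹ * b) := by group
  let r : G → G := fun v => if hv : ∃ y, ψ y = v then hv.choose else 1
  have hr : ∀ y, ψ (r (ψ y)) = ψ y := by
    intro y
    have hex : ∃ y', ψ y' = ψ y := ⟨y, rfl⟩
    have : r (ψ y) = hex.choose := by simp only [r]; rw [dif_pos hex]
    rw [this]
    exact hex.choose_spec
  let yy : (Subgroup.centralizer {(QuotientGroup.mk' N i)} : Subgroup (G ⧸ N)) × N → G :=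
    fun cn => (Quotient.out cn.1.1) * cn.2.1
  have hyy : ∀ cn, (QuotientGroup.mk' N (yy cn)) = cn.1.1 := by
    intro cn
    change ((Quotient.out cn.1.1 * cn.2.1 : G) : G ⧸ N) = cn.1.1
    have h1 : ((Quotient.out cn.1.1 : G) : G ⧸ N) = cn.1.1 := QuotientGroup.out_eq' _
    have h2 : ((Quotient.out cn.1.1 * cn.2.1 : G) : G ⧸ N) = ((Quotient.out cn.1.1 : G) : G ⧸ N) := by
      rw [QuotientGroup.eq]
      simp
    rw [h2, h1]
  let f : (Subgroup.centralizer {(QuotientGroup.mk' N i)} : Subgroup (G ⧸ N)) × N →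
      (Subgroup.centralizer {i} : Subgroup G) × {n : N // n ≠ ⟨n0, hn0⟩} := fun cn =>
    (⟨(r (ψ (yy cn)))⁻¹ * yy cn, hψC _ _ (hr _)⟩,
      ⟨⟨ψ (yy cn), hψ _ (by rw [hyy]; exact cn.1.2)⟩, fun h => hψne _ (congrArg Subtype.val h)⟩)
  have hf : Function.Injective f := by
    intro x y hxy
    have h1 := congrArg (fun z => (z.1 : (Subgroup.centralizer {i} : Subgroup G)).1) hxy
    have h2 := congrArg (fun z => ((z.2 : {n : N // n ≠ ⟨n0, hn0⟩}).1).1) hxy
    have h1 : (r (ψ (yy x)))⁻¹ * yy x = (r (ψ (yy y)))⁻¹ * yy y := h1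
    have h2 : ψ (yy x) = ψ (yy y) := h2
    rw [h2] at h1
    have h3 : yy x = yy y := mul_left_cancel h1
    have h4 : x.1 = y.1 := by
      apply Subtype.ext
      rw [← hyy x, ← hyy y, h3]
    have h5 : x.2 = y.2 := by
      apply Subtype.ext
      have h6 : (Quotient.out x.1.1 : G) * x.2.1 = (Quotient.out y.1.1 : G) * y.2.1 := h3
      rw [h4] at h6
      exact mul_left_cancel h6
    exact Prod.ext h4 h5
  have hcard := Nat.card_le_card_of_injective f hf
  rw [Nat.card_prod, Nat.card_prod] at hcard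
  have hlt : Nat.card {n : N // n ≠ ⟨n0, hn0⟩} < Nat.card N :=
    Finite.card_subtype_lt (x := (⟨n0, hn0⟩ : N)) (by simp)
  have hpos : 0 < Nat.card (Subgroup.centralizer {i} : Subgroup G) := Nat.card_pos
  by_contra hcon
  push Not at hcon
  have h7 : Nat.card (Subgroup.centralizer {i} : Subgroup G) * Nat.card {n : N // n ≠ ⟨n0, hn0⟩} <
      Nat.card (Subgroup.centralizer {i} : Subgroup G) * Nat.card N :=
    Nat.mul_lt_mul_of_pos_left hlt hpos
  have h8 : Nat.card (Subgroup.centralizer {i} : Subgroup G) * Nat.card N ≤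
      Nat.card (Subgroup.centralizer {(QuotientGroup.mk' N i)} : Subgroup (G ⧸ N)) * Nat.card N :=
    Nat.mul_le_mul_right _ hcon
  omega

/-- the union of the finite normal subgroups -/
def finRad (G : Type u) [Group G] : Subgroup G where
  carrier := {x | ∃ N : Subgroup G, N.Normal ∧ (N : Set G).Finite ∧ x ∈ N}
  mul_mem' := by
    rintro a b ⟨N, hN, hNf, ha⟩ ⟨M, hM, hMf, hb⟩
    refine ⟨N ⊔ M, inferInstance, ?_, Subgroup.mul_mem_sup ha hb⟩
    rw [Subgroup.mul_normal]
    exact hNf.mul hMf
  one_mem' := ⟨⊥, inferInstance, by simp, Subgroup.one_mem _⟩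
  inv_mem' := by
    rintro a ⟨N, hN, hNf, ha⟩
    exact ⟨N, hN, hNf, N.inv_mem ha⟩

theorem finRad_le {N : Subgroup G} (hN : N.Normal) (hNf : (N : Set G).Finite) : N ≤ finRad G :=
  fun _ hx => ⟨N, hN, hNf, hx⟩

instance finRad_normal : (finRad G).Normal := by
  constructor
  rintro x ⟨N, hN, hNf, hx⟩ g
  exact ⟨N, hN, hNf, hN.conj_mem x hx g⟩

end groups

/-- **A 2-group with an involution with finite centralizer is of Chernikov type.** -/
theorem cher_of_invol : ∀ (m : ℕ) (H : Type u) [Group H], IsPGroup 2 H → ∀ i : H, i * i = 1 →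
    ((Subgroup.centralizer {i} : Subgroup H) : Set H).Finite →
    Nat.card (Subgroup.centralizer {i} : Subgroup H) = m → Cher H := by
  intro m
  induction m using Nat.strong_induction_on with
  | _ m ih =>
  intro H _ hH i hi hC hm
  by_contra hnot
  have hfC : Finite (Subgroup.centralizer {i} : Subgroup H) := hC
  have hinvi : i⁻¹ = i := by rw [inv_eq_iff_mul_eq_one]; exact hi
  -- `i` inverts every finite normal subgroup
  have hinv : ∀ N : Subgroup H, N.Normal → (N : Set H).Finite → ∀ n ∈ N, i * n * (i * n) = 1 := by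
    intro N hN hNf n0 hn0
    by_contra hne
    have hlt := card_lt_quot N hNf i hi hC n0 hn0 hne
    have hfin := finite_centralizer_quot N hNf i hC
    refine hnot (cher_of_fin_normal hH N hNf (ih _ (hm ▸ hlt) (H ⧸ N) (hH.to_quotient N)
      (QuotientGroup.mk' N i) ?_ hfin rfl))
    rw [← map_mul, hi, map_one]
  set Z := finRad H with hZ
  have hZinv : ∀ z ∈ Z, i * z * i = z⁻¹ := by
    rintro z ⟨N, hN, hNf, hz⟩
    rw [eq_inv_iff_mul_eq_one]
    simpa [mul_assoc] using hinv N hN hNf z hz
  have hZcm : Cm Z := by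
    intro a ha b hb
    have h1 := hZinv _ (Z.mul_mem ha hb)
    have h2 : i * (a * b) * i = (i * a * i) * (i * b * i) := by
      calc i * (a * b) * i = i * a * (i * i) * b * i := by rw [hi]; group
        _ = (i * a * i) * (i * b * i) := by simp only [mul_assoc]
    rw [h2, hZinv a ha, hZinv b hb, ← mul_inv_rev, inv_inj] at h1
    exact h1.symm
  have hZsc : Sc Z := by
    refine hC.subset ?_
    rintro z ⟨hz, hz2⟩
    change z ∈ Subgroup.centralizer {i}
    rw [Subgroup.mem_centralizer_singleton_iff]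
    have h1 := hZinv z hz
    have h2 : z⁻¹ = z := by rw [inv_eq_iff_mul_eq_one]; exact hz2
    rw [h2] at h1
    calc z * i = (i * z * i) * i := by rw [h1]
      _ = i * z * (i * i) := by simp only [mul_assoc]
      _ = i * z := by rw [hi, mul_one]
  -- `Z` is infinite
  have hZinf : ¬ (Z : Set H).Finite := by
    intro hZf
    have hfin := finite_centralizer_quot Z hZf i hC
    have hi2 : (QuotientGroup.mk' Z i) * (QuotientGroup.mk' Z i) = 1 := by
      rw [← map_mul, hi, map_one]
    have hi1 : QuotientGroup.mk' Z i ≠ 1 := by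
      intro h1
      rw [h1] at hfin
      have hq : Finite (H ⧸ Z) := by
        rw [← Set.finite_univ_iff]
        refine hfin.subset ?_
        intro x _
        change x ∈ Subgroup.centralizer {1}
        rw [Subgroup.mem_centralizer_singleton_iff]
        simp
      exact hnot (cher_of_fin_normal hH Z hZf cher_of_finite)
    obtain ⟨W, hW, ⟨w, hw⟩, hW1, hW2⟩ :=
      exists_finite_invariant (hH.to_quotient Z) (QuotientGroup.mk' Z i) hi2 hi1 hfin
    have hMf := dietzmann (hH.to_quotient Z) W hW hW2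
    have hMn : (Subgroup.closure W).Normal := by
      refine ⟨fun x hx g => ?_⟩
      have hle : Subgroup.closure W ≤ (Subgroup.closure W).comap (MulAut.conj g).toMonoidHom := by
        rw [Subgroup.closure_le]
        intro y hy
        exact Subgroup.subset_closure (hW2 g y hy)
      exact hle hx
    have hM : (Subgroup.closure W).comap (QuotientGroup.mk' Z) ≤ Z := by
      refine finRad_le (hMn.comap _) ?_
      refine finite_fib (QuotientGroup.mk' Z) (hMf.subset ?_) hZf ?_
      · rintro _ ⟨x, hx, rfl⟩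
        exact hx
      · intro a _ b _ hab
        exact QuotientGroup.eq.1 hab
    obtain ⟨x, rfl⟩ := QuotientGroup.mk'_surjective Z w
    apply hW1 _ hw
    exact (QuotientGroup.eq_one_iff x).2 (hM (show x ∈ _ from Subgroup.subset_closure hw))
  -- the divisible part of `Z`
  obtain ⟨D, hD⟩ := CherS.core hH (K := Z) ⟨Z, le_rfl, Cov.refl Z, hZcm, hZsc⟩
  have hDne : D ≠ ⊥ := by
    intro h0
    apply hZinf
    refine Cov.finite hD.cov ?_
    rw [h0]
    simp
  have hDn : D.Normal := by
    constructor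
    intro x hx g
    have h1 : cj g Z = Z := by
      ext y
      rw [mem_cj]
      constructor
      · intro hy
        have := (inferInstance : Z.Normal).conj_mem _ hy g
        simpa [mul_assoc] using this
      · intro hy
        have := (inferInstance : Z.Normal).conj_mem _ hy g⁻¹
        simpa [mul_assoc] using this
    have h2 : Core (cj g D) Z := by
      have := hD.cj (h := g)
      rwa [h1] at this
    have h3 := h2.unique hH hD
    rw [← h3, mem_cj]
    simpa [mul_assoc] using hx
  have hDinv : ∀ d ∈ D, i * d * i = d⁻¹ := fun d hd => hZinv d (hD.le hd)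
  apply hnot
  refine cher_of_div_normal hH D hD.cm hD.sc ?_
  have hi2 : (QuotientGroup.mk' D i) * (QuotientGroup.mk' D i) = 1 := by
    rw [← map_mul, hi, map_one]
  -- the centralizer in the quotient
  have hsurj : ∀ q ∈ (Subgroup.centralizer {(QuotientGroup.mk' D i)} : Subgroup (H ⧸ D)),
      ∃ c ∈ (Subgroup.centralizer {i} : Subgroup H), QuotientGroup.mk' D c = q := by
    intro q hq
    obtain ⟨x, rfl⟩ := QuotientGroup.mk'_surjective D q
    have hq' := Subgroup.mem_centralizer_singleton_iff.1 hq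
    have hd : i * (x * i * x⁻¹) ∈ D := by
      rw [← QuotientGroup.eq_one_iff]
      change (QuotientGroup.mk' D) (i * (x * i * x⁻¹)) = 1
      rw [map_mul, map_mul, map_mul, map_inv, hq']
      calc (QuotientGroup.mk' D) i * ((QuotientGroup.mk' D) i * (QuotientGroup.mk' D) x *
            ((QuotientGroup.mk' D) x)⁻¹) = (QuotientGroup.mk' D) i * (QuotientGroup.mk' D) i := by
              group
        _ = 1 := hi2
    obtain ⟨e, he, hed⟩ := hD.dv _ hd
    -- `x i x⁻¹ = i e e = e⁻¹ i e`
    have h1 : x * i * x⁻¹ = i * (e * e) := by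
      rw [hed]
      calc x * i * x⁻¹ = (i * i) * (x * i * x⁻¹) := by rw [hi, one_mul]
        _ = i * (i * (x * i * x⁻¹)) := by simp only [mul_assoc]
    have h2 : e⁻¹ * i * e = i * (e * e) := by
      have h3 := hDinv e he
      calc e⁻¹ * i * e = (i * e * i) * i * e := by rw [h3]
        _ = i * e * (i * i) * e := by simp only [mul_assoc]
        _ = i * (e * e) := by rw [hi]; simp only [mul_one, mul_assoc]
    refine ⟨e * x, ?_, ?_⟩
    · rw [Subgroup.mem_centralizer_singleton_iff]
      have h4 : x * i * x⁻¹ = e⁻¹ * i * e := by rw [h1, h2]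
      calc e * x * i = e * (x * i * x⁻¹) * x := by group
        _ = e * (e⁻¹ * i * e) * x := by rw [h4]
        _ = i * (e * x) := by group
    · change ((e * x : H) : H ⧸ D) = (x : H ⧸ D)
      rw [QuotientGroup.eq]
      have := hDn.conj_mem _ (D.inv_mem he) x⁻¹
      simpa [mul_assoc] using this
  have hfin : ((Subgroup.centralizer {(QuotientGroup.mk' D i)} : Subgroup (H ⧸ D)) :
      Set (H ⧸ D)).Finite := by
    refine (hC.image (QuotientGroup.mk' D)).subset ?_
    intro q hq
    obtain ⟨c, hc, rfl⟩ := hsurj q hq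
    exact ⟨c, hc, rfl⟩
  have hlt : Nat.card (Subgroup.centralizer {(QuotientGroup.mk' D i)} : Subgroup (H ⧸ D)) < m := by
    obtain ⟨e, he, he1, he2⟩ := exists_invol_mem hH hDne
    by_contra hge
    push Not at hge
    let f : (Subgroup.centralizer {i} : Subgroup H) →
        (Subgroup.centralizer {(QuotientGroup.mk' D i)} : Subgroup (H ⧸ D)) := fun c =>
      ⟨QuotientGroup.mk' D c.1, by
        rw [Subgroup.mem_centralizer_singleton_iff, ← map_mul, ← map_mul,
          Subgroup.mem_centralizer_singleton_iff.1 c.2]⟩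
    have hf : Function.Surjective f := by
      rintro ⟨q, hq⟩
      obtain ⟨c, hc, rfl⟩ := hsurj q hq
      exact ⟨⟨c, hc⟩, rfl⟩
    have hfb := hf.bijective_of_nat_card_le (by rw [hm]; exact hge)
    have hec : e ∈ (Subgroup.centralizer {i} : Subgroup H) := by
      rw [Subgroup.mem_centralizer_singleton_iff]
      have h1 := hDinv e he
      have h2 : e⁻¹ = e := by rw [inv_eq_iff_mul_eq_one]; exact he2
      rw [h2] at h1
      calc e * i = (i * e * i) * i := by rw [h1]
        _ = i * e * (i * i) := by simp only [mul_assoc]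
        _ = i * e := by rw [hi, mul_one]
    have h3 : f ⟨e, hec⟩ = f ⟨1, Subgroup.one_mem _⟩ := by
      apply Subtype.ext
      change QuotientGroup.mk' D e = QuotientGroup.mk' D 1
      rw [map_one]
      exact (QuotientGroup.eq_one_iff e).2 he
    have h4 := congrArg Subtype.val (hfb.1 h3)
    exact he1 h4
  exact ih _ hlt (H ⧸ D) (hH.to_quotient D) (QuotientGroup.mk' D i) hi2 hfin rfl

end Run7.h79
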