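import Mathlib
import Pool.Agent.Run7.h79.Invol

/-!
Involutions whose centralizer is of Chernikov type: tools for the induction on the rank.
-/

set_option autoImplicit false

namespace Run7.h79

open Subgroup

universe u

/-- the set of elements of order at most two of a subgroup -/
def soc {G : Type u} [Group G] (D : Subgroup G) : Set G := {a | a ∈ D ∧ a * a = 1}

/-- the induction hypothesis -/
def IHyp (n : ℕ) : Prop :=
  ∀ (H : Type u) [Group H], IsPGroup 2 H → ∀ t : H, ∀ D : Subgroup H, t * t = 1 →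
    Core D (Subgroup.centralizer {t}) → (soc D).ncard < n → Cher H

section tools

variable {G : Type u} [Group G]

theorem soc_lt (hG : IsPGroup 2 G) {B D : Subgroup G} (hB : Dv B) (hBD : B ≤ D) (hD : Cm D)
    (hsc : Sc D) (hne : ¬ D ≤ B) : (soc B).ncard < (soc D).ncard := by
  refine Set.ncard_lt_ncard ?_ hsc
  refine ⟨fun a ha => ⟨hBD ha.1, ha.2⟩, fun hcon => hne ?_⟩
  exact hB.eq_of_socle hG hBD hD (fun a ha ha2 => (hcon ⟨ha, ha2⟩).1)

theorem soc_comap {D K : Subgroup G} (hsc : Sc D) :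
    (soc (D.comap K.subtype)).ncard ≤ (soc D).ncard := by
  rw [← Set.ncard_image_of_injective _ K.subtype_injective]
  refine Set.ncard_le_ncard ?_ hsc
  rintro _ ⟨a, ⟨ha, ha2⟩, rfl⟩
  exact ⟨ha, by simpa using congrArg K.subtype ha2⟩

theorem centralizer_comap {K : Subgroup G} {t : G} (ht : t ∈ K) :
    (Subgroup.centralizer {t}).comap K.subtype = Subgroup.centralizer {(⟨t, ht⟩ : K)} := by
  ext x
  rw [Subgroup.mem_comap, Subgroup.mem_centralizer_singleton_iff,
    Subgroup.mem_centralizer_singleton_iff]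
  constructor
  · intro h
    exact Subtype.ext h
  · intro h
    exact congrArg Subtype.val h

/-- subgroups not containing `D` are of Chernikov type -/
theorem rih (hG : IsPGroup 2 G) {n : ℕ} (ih : IHyp.{u} n) {t : G} {D : Subgroup G}
    (ht : t * t = 1) (hD : Core D (Subgroup.centralizer {t})) (hn : (soc D).ncard ≤ n)
    (K : Subgroup G) (htK : t ∈ K) (hDK : ¬ D ≤ K) : CherS K := by
  obtain ⟨D', hD'⟩ := (hD.cher.mono (inf_le_left : Subgroup.centralizer {t} ⊓ K ≤ _)).core hG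
  have hD'D : D' ≤ D := hD.largest hG hD'.dv (hD'.le.trans inf_le_left)
  have hD'K : D' ≤ K := hD'.le.trans inf_le_right
  have hlt := soc_lt hG hD'.dv hD'D hD.cm hD.sc (fun h => hDK (h.trans hD'K))
  have h1 := hD'.comap_subtype hD'K
  have h2 : (Subgroup.centralizer {t} ⊓ K).comap K.subtype =
      Subgroup.centralizer {(⟨t, htK⟩ : K)} := by
    rw [← centralizer_comap htK, Subgroup.comap_inf]
    refine inf_eq_left.2 ?_
    intro x _
    exact x.2
  rw [h2] at h1
  have h3 := soc_comap (K := K) hD'.sc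
  exact Cher.toS (ih K (hG.to_subgroup K) ⟨t, htK⟩ _ (Subtype.ext ht) h1 (by omega))

theorem IHyp.mono {n m : ℕ} (ih : IHyp.{u} n) (hm : m ≤ n) : IHyp.{u} m := by
  intro H _ hH t D ht hD hlt
  exact ih H hH t D ht hD (by omega)

/-- case of a central divisible subgroup -/
theorem cher_of_central (hG : IsPGroup 2 G) {n : ℕ} (ih : IHyp.{u} n) {t : G} {D : Subgroup G}
    (ht : t * t = 1) (hD : Core D (Subgroup.centralizer {t})) (hn : (soc D).ncard ≤ n)
    (B : Subgroup G) (hBD : B ≤ D) (hB : Dv B) (hB1 : B ≠ ⊥)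
    (hc : ∀ g : G, ∀ b ∈ B, g * b = b * g) : Cher G := by
  have hBn : B.Normal := ⟨fun b hb g => by rw [hc g b hb, mul_inv_cancel_right]; exact hb⟩
  have hBcm : Cm B := fun a ha b hb => hD.cm a (hBD ha) b (hBD hb)
  have hBsc : Sc B := hD.sc.subset (fun a ha => ⟨hBD ha.1, ha.2⟩)
  refine cher_of_div_normal hG B hBcm hBsc ?_
  have hsoc : soc (D.map (QuotientGroup.mk' B)) ⊆ (QuotientGroup.mk' B) '' soc D := by
    rintro _ ⟨⟨d, hd, rfl⟩, hq⟩
    have h1 : d * d ∈ B := by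
      rw [← QuotientGroup.eq_one_iff]
      exact hq
    obtain ⟨b, hb, hbd⟩ := hB _ h1
    refine ⟨d * b⁻¹, ⟨D.mul_mem hd (D.inv_mem (hBD hb)), ?_⟩, ?_⟩
    · have h2 := hc d⁻¹ b hb
      have h3 : d * b⁻¹ = b⁻¹ * d := hD.cm _ hd _ (D.inv_mem (hBD hb))
      calc d * b⁻¹ * (d * b⁻¹) = d * b⁻¹ * (b⁻¹ * d) := by rw [h3]
        _ = d * (b * b)⁻¹ * d := by group
        _ = 1 := by rw [hbd]; group
    · rw [map_mul]
      have h4 : QuotientGroup.mk' B b⁻¹ = 1 := (QuotientGroup.eq_one_iff _).2 (B.inv_mem hb)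
      rw [h4, mul_one]
  have hfin : (soc D).Finite := hD.sc
  have hcard : (soc (D.map (QuotientGroup.mk' B))).ncard < (soc D).ncard := by
    refine lt_of_le_of_lt (Set.ncard_le_ncard hsoc (hfin.image _)) ?_
    refine lt_of_le_of_ne (Set.ncard_image_le hfin) ?_
    intro heq
    have hinj := Set.injOn_of_ncard_image_eq heq hfin
    obtain ⟨e, he, he1, he2⟩ := exists_invol_mem hG hB1
    apply he1
    refine hinj (show e ∈ soc D from ⟨hBD he, he2⟩) (show (1 : G) ∈ soc D from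
      ⟨D.one_mem, by simp⟩) ?_
    rw [map_one]
    exact (QuotientGroup.eq_one_iff e).2 he
  refine ih (G ⧸ B) (hG.to_quotient B) (QuotientGroup.mk' B t) (D.map (QuotientGroup.mk' B))
    (by rw [← map_mul, ht, map_one]) ?_ (by omega)
  refine ⟨?_, ?_, ?_, (hfin.image _).subset hsoc, ?_⟩
  · rintro _ ⟨d, hd, rfl⟩
    rw [Subgroup.mem_centralizer_singleton_iff, ← map_mul, ← map_mul,
      Subgroup.mem_centralizer_singleton_iff.1 (hD.le hd)]
  · have hY : Cov (Subgroup.centralizer {t})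
        {y : G | QuotientGroup.mk' B y ∈ Subgroup.centralizer {QuotientGroup.mk' B t}} := by
      refine Cov.of_fiber (fun y => y * t * y⁻¹) ((hBsc.image (fun b => t * b)).subset ?_) ?_
      · rintro _ ⟨y, hy, rfl⟩
        have hy' := Subgroup.mem_centralizer_singleton_iff.1 hy
        have hb : t⁻¹ * (y * t * y⁻¹) ∈ B := by
          rw [← QuotientGroup.eq_one_iff]
          change (QuotientGroup.mk' B) (t⁻¹ * (y * t * y⁻¹)) = 1
          rw [map_mul, map_mul, map_mul, map_inv, map_inv, hy']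
          group
        refine ⟨t⁻¹ * (y * t * y⁻¹), ⟨hb, ?_⟩, by group⟩
        obtain ⟨b, hbdef⟩ : ∃ b, b = t⁻¹ * (y * t * y⁻¹) := ⟨_, rfl⟩
        rw [← hbdef] at hb ⊢
        have h1 : t * b = y * t * y⁻¹ := by rw [hbdef]; group
        have h2 : (t * b) * (t * b) = 1 := by
          rw [h1]
          calc y * t * y⁻¹ * (y * t * y⁻¹) = y * (t * t) * y⁻¹ := by group
            _ = 1 := by rw [ht]; group
        have h3 := hc t b hb
        calc b * b = (t * t) * (b * b) := by rw [ht, one_mul]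
          _ = t * (t * b) * b := by simp only [mul_assoc]
          _ = t * (b * t) * b := by rw [h3]
          _ = (t * b) * (t * b) := by simp only [mul_assoc]
          _ = 1 := h2
      · intro y _ y' _ hyy
        have hyy : y * t * y⁻¹ = y' * t * y'⁻¹ := hyy
        rw [Subgroup.mem_centralizer_singleton_iff]
        calc y⁻¹ * y' * t = y⁻¹ * (y' * t * y'⁻¹) * y' := by group
          _ = y⁻¹ * (y * t * y⁻¹) * y' := by rw [hyy]
          _ = t * (y⁻¹ * y') := by group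
    have h2 := (hY.trans hD.cov).map (QuotientGroup.mk' B)
    refine h2.mono ?_
    intro q hq
    obtain ⟨y, rfl⟩ := QuotientGroup.mk'_surjective B q
    exact ⟨y, hq, rfl⟩
  · rintro _ ⟨a, ha, rfl⟩ _ ⟨b, hb, rfl⟩
    rw [← map_mul, ← map_mul, hD.cm a ha b hb]
  · rintro _ ⟨d, hd, rfl⟩
    obtain ⟨e, he, rfl⟩ := hD.dv d hd
    exact ⟨_, ⟨e, he, rfl⟩, by rw [map_mul]⟩

theorem cher_centralizer (hG : IsPGroup 2 G) {n : ℕ} (ih : IHyp.{u} n) {t : G} {D : Subgroup G}
    (ht : t * t = 1) (hD : Core D (Subgroup.centralizer {t})) (hn : (soc D).ncard ≤ n)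
    (B : Subgroup G) (hBD : B ≤ D) (hB : Dv B) (hB1 : B ≠ ⊥) :
    CherS (Subgroup.centralizer (B : Set G)) := by
  set K := Subgroup.centralizer (B : Set G) with hK
  have htK : t ∈ K := by
    rw [hK, Subgroup.mem_centralizer_iff]
    intro b hb
    exact Subgroup.mem_centralizer_singleton_iff.1 (hD.le (hBD hb))
  have hDK : D ≤ K := by
    intro d hd
    rw [hK, Subgroup.mem_centralizer_iff]
    intro b hb
    exact hD.cm b (hBD hb) d hd
  have h1 := hD.comap_subtype hDK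
  rw [centralizer_comap htK] at h1
  refine Cher.toS (cher_of_central (hG.to_subgroup K) ih (Subtype.ext ht) h1
    ((soc_comap hD.sc).trans hn) (B.comap K.subtype) (Subgroup.comap_mono hBD) ?_ ?_ ?_)
  · intro b hb
    obtain ⟨c, hc, hcb⟩ := hB b hb
    exact ⟨⟨c, hDK (hBD hc)⟩, hc, Subtype.ext hcb⟩
  · intro h0
    apply hB1
    rw [eq_bot_iff]
    intro b hb
    have : (⟨b, hDK (hBD hb)⟩ : K) ∈ B.comap K.subtype := hb
    rw [h0, Subgroup.mem_bot] at this
    exact Subgroup.mem_bot.2 (congrArg Subtype.val this)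
  · intro g b hb
    exact Subtype.ext ((Subgroup.mem_centralizer_iff.1 g.2 b.1 hb).symm)

/-- every divisible subgroup commuting with a nontrivial divisible subgroup of `D` lies in the
core `A` of the centralizer of `D` -/
theorem le_core (hG : IsPGroup 2 G) {n : ℕ} (ih : IHyp.{u} n) {t : G} {D : Subgroup G}
    (ht : t * t = 1) (hD : Core D (Subgroup.centralizer {t})) (hn : (soc D).ncard ≤ n)
    {A : Subgroup G} (hA : Core A (Subgroup.centralizer (D : Set G)))
    {B : Subgroup G} (hBD : B ≤ D) (hB : Dv B) (hB1 : B ≠ ⊥)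
    {E : Subgroup G} (hE : Dv E) (hEB : E ≤ Subgroup.centralizer (B : Set G)) : E ≤ A := by
  obtain ⟨AB, hAB⟩ := (cher_centralizer hG ih ht hD hn B hBD hB hB1).core hG
  have h1 : E ≤ AB := hAB.largest hG hE hEB
  have h2 : D ≤ AB := by
    refine hAB.largest hG hD.dv ?_
    intro d hd
    rw [Subgroup.mem_centralizer_iff]
    intro b hb
    exact hD.cm b (hBD hb) d hd
  have h3 : AB ≤ A := by
    refine hA.largest hG hAB.dv ?_
    intro a ha
    rw [Subgroup.mem_centralizer_iff]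
    intro d hd
    exact hAB.cm d (h2 hd) a ha
  exact h1.trans h3

/-- the elements `d * d ^ x` -/
def plus (D : Subgroup G) (hD : Cm D) (x : G) (hx : ∀ d ∈ D, x⁻¹ * d * x ∈ D) : Subgroup G where
  carrier := {y | ∃ d ∈ D, d * (x⁻¹ * d * x) = y}
  mul_mem' := by
    rintro _ _ ⟨a, ha, rfl⟩ ⟨b, hb, rfl⟩
    refine ⟨a * b, D.mul_mem ha hb, ?_⟩
    have h1 := hD b hb _ (hx a ha)
    calc a * b * (x⁻¹ * (a * b) * x) = a * (b * (x⁻¹ * a * x)) * (x⁻¹ * b * x) := by group
      _ = a * ((x⁻¹ * a * x) * b) * (x⁻¹ * b * x) := by rw [h1]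
      _ = a * (x⁻¹ * a * x) * (b * (x⁻¹ * b * x)) := by group
  one_mem' := ⟨1, D.one_mem, by group⟩
  inv_mem' := by
    rintro _ ⟨a, ha, rfl⟩
    refine ⟨a⁻¹, D.inv_mem ha, ?_⟩
    have h1 := hD a⁻¹ (D.inv_mem ha) (x⁻¹ * a⁻¹ * x) (hx _ (D.inv_mem ha))
    calc a⁻¹ * (x⁻¹ * a⁻¹ * x) = (x⁻¹ * a⁻¹ * x) * a⁻¹ := h1
      _ = (a * (x⁻¹ * a * x))⁻¹ := by group

theorem plus_le {D : Subgroup G} (hD : Cm D) {x : G} (hx : ∀ d ∈ D, x⁻¹ * d * x ∈ D) :
    plus D hD x hx ≤ D := by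
  rintro _ ⟨a, ha, rfl⟩
  exact D.mul_mem ha (hx a ha)

theorem plus_dv {D : Subgroup G} (hD : Cm D) {x : G} (hx : ∀ d ∈ D, x⁻¹ * d * x ∈ D)
    (hdv : Dv D) : Dv (plus D hD x hx) := by
  rintro _ ⟨a, ha, rfl⟩
  obtain ⟨b, hb, rfl⟩ := hdv a ha
  refine ⟨b * (x⁻¹ * b * x), ⟨b, hb, rfl⟩, ?_⟩
  have h1 := hD b hb _ (hx b hb)
  calc b * (x⁻¹ * b * x) * (b * (x⁻¹ * b * x)) = b * ((x⁻¹ * b * x) * b) * (x⁻¹ * b * x) := by group
    _ = b * (b * (x⁻¹ * b * x)) * (x⁻¹ * b * x) := by rw [h1]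
    _ = b * b * (x⁻¹ * (b * b) * x) := by group

theorem plus_comm {D : Subgroup G} (hD : Cm D) {x : G} (hx : ∀ d ∈ D, x⁻¹ * d * x ∈ D)
    (hxx : ∀ d ∈ D, x * x * d = d * (x * x)) : ∀ w ∈ plus D hD x hx, w * x = x * w := by
  rintro _ ⟨a, ha, rfl⟩
  have h1 := hD _ (hx a ha) a ha
  have h2 := hxx a ha
  calc a * (x⁻¹ * a * x) * x = a * x⁻¹ * (a * (x * x)) := by group
    _ = a * x⁻¹ * (x * x * a) := by rw [h2]
    _ = x * ((x⁻¹ * a * x) * a) := by group
    _ = x * (a * (x⁻¹ * a * x)) := by rw [h1]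

/-- elements sending `z` to `z` or its inverse -/
def Kpm (z : G) : Subgroup G where
  carrier := {h | h * z * h⁻¹ = z ∨ h * z * h⁻¹ = z⁻¹}
  mul_mem' := by
    rintro a b (ha | ha) (hb | hb)
    · left
      calc a * b * z * (a * b)⁻¹ = a * (b * z * b⁻¹) * a⁻¹ := by group
        _ = z := by rw [hb, ha]
    · right
      calc a * b * z * (a * b)⁻¹ = a * (b * z * b⁻¹) * a⁻¹ := by group
        _ = (a * z * a⁻¹)⁻¹ := by rw [hb]; group
        _ = z⁻¹ := by rw [ha]
    · right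
      calc a * b * z * (a * b)⁻¹ = a * (b * z * b⁻¹) * a⁻¹ := by group
        _ = z⁻¹ := by rw [hb, ha]
    · left
      calc a * b * z * (a * b)⁻¹ = a * (b * z * b⁻¹) * a⁻¹ := by group
        _ = (a * z * a⁻¹)⁻¹ := by rw [hb]; group
        _ = z := by rw [ha, inv_inv]
  one_mem' := by left; group
  inv_mem' := by
    rintro a (ha | ha)
    · left
      calc a⁻¹ * z * a⁻¹⁻¹ = a⁻¹ * (a * z * a⁻¹) * a := by rw [ha]; group
        _ = z := by group
    · right
      have : z = a⁻¹ * z⁻¹ * a := by rw [← ha]; group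
      calc a⁻¹ * z * a⁻¹⁻¹ = (a⁻¹ * z⁻¹ * a)⁻¹ := by group
        _ = z⁻¹ := by rw [← this]

theorem centralizer_le_Kpm (z : G) : Subgroup.centralizer {z} ≤ Kpm z := by
  intro h hh
  left
  rw [Subgroup.mem_centralizer_singleton_iff.1 hh, mul_inv_cancel_right]

theorem mem_Kpm_of_inv {t z : G} (ht : t * t = 1) (h : t * z * t = z⁻¹) : t ∈ Kpm z := by
  right
  have : t⁻¹ = t := by rw [inv_eq_iff_mul_eq_one]; exact ht
  rw [this, h]

theorem comm_of_le_Kpm {D : Subgroup G} (hdv : Dv D) {z : G} (h : D ≤ Kpm z) :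
    ∀ d ∈ D, z * d = d * z := by
  intro d hd
  obtain ⟨e, he, rfl⟩ := hdv d hd
  have h1 : e * e * z * (e * e)⁻¹ = z := by
    rcases h he with h2 | h2
    · calc e * e * z * (e * e)⁻¹ = e * (e * z * e⁻¹) * e⁻¹ := by group
        _ = z := by rw [h2, h2]
    · calc e * e * z * (e * e)⁻¹ = e * (e * z * e⁻¹) * e⁻¹ := by group
        _ = e * z⁻¹ * e⁻¹ := by rw [h2]
        _ = (e * z * e⁻¹)⁻¹ := by group
        _ = z := by rw [h2, inv_inv]
  exact (mul_inv_eq_iff_eq_mul.1 h1).symm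

end tools

end Run7.h79
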