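import Mathlib
import Pool.Agent.Run7.h79.Tools

/-!
A 2-group with an involution whose centralizer is of Chernikov type is of Chernikov type.
-/

set_option autoImplicit false

namespace Run7.h79

open Subgroup

universe u

section main

variable {G : Type u} [Group G]

theorem cube_comm (hG : IsPGroup 2 G) {g x : G} (h : g⁻¹ * (g⁻¹ * (g⁻¹ * x * g) * g) * g = x) :
    g * x = x * g := by
  have h1 : g ^ 3 ∈ Subgroup.centralizer {x} := by
    rw [Subgroup.mem_centralizer_singleton_iff, pow_succ, pow_two]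
    calc g * g * g * x = g * g * g * (g⁻¹ * (g⁻¹ * (g⁻¹ * x * g) * g) * g) := by rw [h]
      _ = x * (g * g * g) := by group
  have h2 := mem_of_odd_pow hG _ g 3 (by decide) h1
  exact Subgroup.mem_centralizer_singleton_iff.1 h2

/-- elements of divisible groups inverted by `t` centralize or invert `D` once their square
centralizes `D` -/
theorem dstar (hG : IsPGroup 2 G) {n : ℕ} (ih : IHyp.{u} n) {t : G} {D : Subgroup G}
    (ht : t * t = 1) (hD : Core D (Subgroup.centralizer {t})) (hn : (soc D).ncard ≤ n)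
    {Q : Subgroup G} (hQ : Dv Q) (hQcm : Cm Q) (hQt : ∀ q ∈ Q, t * q * t = q⁻¹)
    {z : G} (hz : z ∈ Q) (hzz : ∀ d ∈ D, z * z * d = d * (z * z)) :
    (∀ d ∈ D, z * d = d * z) ∨ (∀ d ∈ D, z⁻¹ * d * z = d⁻¹) := by
  have htz : t * z * t = z⁻¹ := hQt z hz
  have htz2 : z * t = t * z⁻¹ := by
    rw [← htz]
    calc z * t = (t * t) * (z * t) := by rw [ht, one_mul]
      _ = t * (t * z * t) := by simp only [mul_assoc]
  have htz3 : z⁻¹ * t = t * z := by
    calc z⁻¹ * t = t * z * t * t := by rw [htz]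
      _ = t * z * (t * t) := by simp only [mul_assoc]
      _ = t * z := by rw [ht, mul_one]
  -- `z` normalizes `D`
  have hle : cj z⁻¹ D ≤ D := by
    refine hD.largest hG hD.dv.cj ?_
    intro x hx
    rw [mem_cj, inv_inv] at hx
    obtain ⟨d, hddef⟩ : ∃ d, d = z * x * z⁻¹ := ⟨_, rfl⟩
    rw [← hddef] at hx
    have hxd : x = z⁻¹ * d * z := by rw [hddef]; group
    have h1 : d * t = t * d := Subgroup.mem_centralizer_singleton_iff.1 (hD.le hx)
    have h2 := hzz d hx
    rw [Subgroup.mem_centralizer_singleton_iff, hxd]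
    calc z⁻¹ * d * z * t = z⁻¹ * d * (z * t) := by group
      _ = z⁻¹ * (d * t) * z⁻¹ := by rw [htz2]; group
      _ = (z⁻¹ * t) * d * z⁻¹ := by rw [h1]; group
      _ = t * z⁻¹ * (z * z * d) * z⁻¹ := by rw [htz3]; group
      _ = t * z⁻¹ * (d * (z * z)) * z⁻¹ := by rw [h2]
      _ = t * (z⁻¹ * d * z) := by group
  have hzD : ∀ d ∈ D, z⁻¹ * d * z ∈ D := by
    intro d hd
    apply hle
    rw [mem_cj]
    simpa [mul_assoc] using hd
  by_cases hB1 : plus D hD.cm z hzD = ⊥
  · right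
    intro d hd
    have h1 : d * (z⁻¹ * d * z) ∈ plus D hD.cm z hzD := ⟨d, hd, rfl⟩
    rw [hB1, Subgroup.mem_bot] at h1
    exact (inv_eq_of_mul_eq_one_right h1).symm
  · left
    by_cases hK : D ≤ Kpm z
    · exact comm_of_le_Kpm hD.dv hK
    · obtain ⟨AK, hAK⟩ := (rih hG ih ht hD hn (Kpm z) (mem_Kpm_of_inv ht htz) hK).core hG
      have hBK : plus D hD.cm z hzD ≤ AK := by
        refine hAK.largest hG (plus_dv hD.cm hzD hD.dv) ?_
        intro w hw
        apply centralizer_le_Kpm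
        rw [Subgroup.mem_centralizer_singleton_iff]
        exact plus_comm hD.cm hzD hzz w hw
      have hQK : Q ≤ AK := by
        refine hAK.largest hG hQ ?_
        intro q hq
        apply centralizer_le_Kpm
        rw [Subgroup.mem_centralizer_singleton_iff]
        exact hQcm q hq z hz
      obtain ⟨AB, hAB⟩ := (cher_centralizer hG ih ht hD hn _ (plus_le hD.cm hzD)
        (plus_dv hD.cm hzD hD.dv) hB1).core hG
      have hQB : Q ≤ AB := by
        refine hAB.largest hG hQ ?_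
        intro q hq
        rw [Subgroup.mem_centralizer_iff]
        intro b hb
        exact hAK.cm b (hBK hb) q (hQK hq)
      have hDB : D ≤ AB := by
        refine hAB.largest hG hD.dv ?_
        intro d hd
        rw [Subgroup.mem_centralizer_iff]
        intro b hb
        exact hD.cm b (plus_le hD.cm hzD hb) d hd
      intro d hd
      exact hAB.cm z (hQB hz) d (hDB hd)

/-- elements of divisible abelian groups inverted by `t` which invert `D` -/
structure ZZ (t : G) (D : Subgroup G) (z : G) (Q : Subgroup G) : Prop where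
  dv : Dv Q
  cm : Cm Q
  inv : ∀ q ∈ Q, t * q * t = q⁻¹
  mem : z ∈ Q
  invD : ∀ d ∈ D, z⁻¹ * d * z = d⁻¹

theorem zz_core (hG : IsPGroup 2 G) {n : ℕ} (ih : IHyp.{u} n) {t : G} {D : Subgroup G}
    (ht : t * t = 1) (hD : Core D (Subgroup.centralizer {t})) (hn : (soc D).ncard ≤ n)
    (hD1 : D ≠ ⊥) {z : G} {Q : Subgroup G} (hz : ZZ t D z Q) :
    ∃ E : Subgroup G, Core E (Subgroup.centralizer {z}) ∧ Q ≤ E ∧ ∀ b ∈ E, t * b * t = b⁻¹ := by
  have htinv : t⁻¹ = t := by rw [inv_eq_iff_mul_eq_one]; exact ht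
  have hK : ¬ D ≤ Kpm z := by
    intro hK
    apply hD1
    apply hD.dv.bot_of_invol
    intro d hd
    have h1 := comm_of_le_Kpm hD.dv hK d hd
    have h2 := hz.invD d hd
    have h3 : z⁻¹ * d * z = d := by
      calc z⁻¹ * d * z = z⁻¹ * (d * z) := by group
        _ = z⁻¹ * (z * d) := by rw [h1]
        _ = d := by group
    rw [h3] at h2
    exact mul_eq_one_iff_eq_inv.2 h2
  have htz : t * z * t = z⁻¹ := hz.inv z hz.mem
  obtain ⟨E, hE⟩ := ((rih hG ih ht hD hn (Kpm z) (mem_Kpm_of_inv ht htz) hK).mono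
    (centralizer_le_Kpm z)).core hG
  have hQE : Q ≤ E := by
    refine hE.largest hG hz.dv ?_
    intro q hq
    rw [Subgroup.mem_centralizer_singleton_iff]
    exact hz.cm q hq z hz.mem
  have htz2 : z * t = t * z⁻¹ := by
    rw [← htz]
    calc z * t = (t * t) * (z * t) := by rw [ht, one_mul]
      _ = t * (t * z * t) := by simp only [mul_assoc]
  have htz3 : z⁻¹ * t = t * z := by
    calc z⁻¹ * t = t * z * t * t := by rw [htz]
      _ = t * z * (t * t) := by simp only [mul_assoc]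
      _ = t * z := by rw [ht, mul_one]
  have htE : ∀ b ∈ E, t⁻¹ * b * t ∈ E := by
    have hle : cj t⁻¹ E ≤ E := by
      refine hE.largest hG hE.dv.cj ?_
      intro x hx
      rw [mem_cj, inv_inv] at hx
      have h1 := Subgroup.mem_centralizer_singleton_iff.1 (hE.le hx)
      rw [Subgroup.mem_centralizer_singleton_iff]
      have h2 : (t * x * t⁻¹) * z⁻¹ = z⁻¹ * (t * x * t⁻¹) := by
        have : Commute (t * x * t⁻¹) z := h1
        exact this.inv_right
      calc x * z = t⁻¹ * ((t * x * t⁻¹) * (t * z)) := by group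
        _ = t⁻¹ * ((t * x * t⁻¹) * (z⁻¹ * t)) := by rw [htz3]
        _ = t⁻¹ * ((t * x * t⁻¹) * z⁻¹) * t := by group
        _ = t⁻¹ * (z⁻¹ * (t * x * t⁻¹)) * t := by rw [h2]
        _ = t⁻¹ * (z⁻¹ * t) * x := by group
        _ = t⁻¹ * (t * z) * x := by rw [htz3]
        _ = z * x := by group
    intro b hb
    apply hle
    rw [mem_cj]
    simpa [mul_assoc] using hb
  refine ⟨E, hE, hQE, ?_⟩
  have hP : plus E hE.cm t htE = ⊥ := by
    apply (plus_dv hE.cm htE hE.dv).bot_of_invol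
    have hPD : plus E hE.cm t htE ≤ D := by
      refine hD.largest hG (plus_dv hE.cm htE hE.dv) ?_
      intro w hw
      rw [Subgroup.mem_centralizer_singleton_iff]
      refine plus_comm hE.cm htE ?_ w hw
      intro d _
      rw [ht, one_mul, mul_one]
    intro w hw
    have h1 := hz.invD w (hPD hw)
    have h2 := Subgroup.mem_centralizer_singleton_iff.1 (hE.le (plus_le hE.cm htE hw))
    have h3 : z⁻¹ * w * z = w := by
      rw [mul_assoc, h2]; group
    rw [h3] at h1
    exact mul_eq_one_iff_eq_inv.2 h1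
  intro b hb
  have h1 : b * (t⁻¹ * b * t) ∈ plus E hE.cm t htE := ⟨b, hb, rfl⟩
  rw [hP, Subgroup.mem_bot, htinv] at h1
  exact (inv_eq_of_mul_eq_one_right h1).symm

theorem zz_step1 (hG : IsPGroup 2 G) {n : ℕ} (ih : IHyp.{u} n) {t : G} {D : Subgroup G}
    (ht : t * t = 1) (hD : Core D (Subgroup.centralizer {t})) (hn : (soc D).ncard ≤ n)
    (hD1 : D ≠ ⊥) {z : G} {Q : Subgroup G} (hz : ZZ t D z Q) {e x : G} (he : e ∈ D)
    (he2 : e * e = 1) (hx : x ∈ D) (hxe : x * x = e) :
    ∃ (z' : G) (Q' : Subgroup G), ZZ t D z' Q' ∧ ∀ q ∈ Q', q * e = e * q := by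
  obtain ⟨E, hE, hQE, hEt⟩ := zz_core hG ih ht hD hn hD1 hz
  have heinv : e⁻¹ = e := by rw [inv_eq_iff_mul_eq_one]; exact he2
  have hze : z * e = e * z := by
    have h1 := hz.invD e he
    rw [heinv] at h1
    calc z * e = z * (z⁻¹ * e * z) := by rw [h1]
      _ = e * z := by group
  have heE : ∀ b ∈ E, e⁻¹ * b * e ∈ E := by
    have hle : cj e⁻¹ E ≤ E := by
      refine hE.largest hG hE.dv.cj ?_
      intro y hy
      rw [mem_cj, inv_inv] at hy
      have h1 := Subgroup.mem_centralizer_singleton_iff.1 (hE.le hy)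
      rw [Subgroup.mem_centralizer_singleton_iff]
      calc y * z = e⁻¹ * ((e * y * e⁻¹) * (e * z)) := by group
        _ = e⁻¹ * ((e * y * e⁻¹) * (z * e)) := by rw [hze]
        _ = e⁻¹ * (((e * y * e⁻¹) * z) * e) := by group
        _ = e⁻¹ * ((z * (e * y * e⁻¹)) * e) := by rw [h1]
        _ = e⁻¹ * (z * e) * y := by group
        _ = e⁻¹ * (e * z) * y := by rw [hze]
        _ = z * y := by group
    intro b hb
    apply hle
    rw [mem_cj]
    simpa [mul_assoc] using hb
  have hzE : z ∈ E := hQE hz.mem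
  obtain ⟨a, ha, haz⟩ := hE.dv.root 2 z hzE
  have hee : ∀ b : G, e⁻¹ * (e⁻¹ * b * e) * e = b := by
    intro b
    calc e⁻¹ * (e⁻¹ * b * e) * e = (e * e)⁻¹ * b * (e * e) := by group
      _ = b := by rw [he2]; group
  obtain ⟨a', ha'⟩ : ∃ a', a' = e⁻¹ * a * e := ⟨_, rfl⟩
  have ha'E : a' ∈ E := ha' ▸ heE a ha
  have ha'e : e⁻¹ * a' * e = a := by rw [ha']; exact hee a
  obtain ⟨p, hp⟩ : ∃ p, p = a * a' := ⟨_, rfl⟩
  obtain ⟨q, hq⟩ : ∃ q, q = a * a'⁻¹ := ⟨_, rfl⟩
  have hpE : p ∈ E := hp ▸ E.mul_mem ha ha'E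
  have hqE : q ∈ E := hq ▸ E.mul_mem ha (E.inv_mem ha'E)
  have hqe : e⁻¹ * q * e = q⁻¹ := by
    calc e⁻¹ * q * e = (e⁻¹ * a * e) * (e⁻¹ * a' * e)⁻¹ := by rw [hq]; group
      _ = a' * a⁻¹ := by rw [ha'e, ← ha']
      _ = q⁻¹ := by rw [hq]; group
  have hmn : (q * q) * (p * p) = z := by
    have h1 : q * p = p * q := hE.cm q hqE p hpE
    have h2 : q * p = a * a := by
      have h3 : a'⁻¹ * a = a * a'⁻¹ := hE.cm _ (E.inv_mem ha'E) _ ha
      calc q * p = a * (a'⁻¹ * a) * a' := by rw [hq, hp]; group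
        _ = a * (a * a'⁻¹) * a' := by rw [h3]
        _ = a * a := by group
    calc (q * q) * (p * p) = q * (q * p) * p := by group
      _ = q * (p * q) * p := by rw [h1]
      _ = (q * p) * (q * p) := by group
      _ = (a * a) * (a * a) := by rw [h2]
      _ = a ^ (2 ^ 2) := by rw [show (2 : ℕ) ^ 2 = 2 + 2 from rfl, pow_add, pow_two]
      _ = z := haz
  obtain ⟨m, hm⟩ : ∃ m, m = q * q := ⟨_, rfl⟩
  obtain ⟨w, hw⟩ : ∃ w, w = p * p := ⟨_, rfl⟩
  rw [← hm, ← hw] at hmn
  have hmE : m ∈ E := hm ▸ E.mul_mem hqE hqE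
  have hwE : w ∈ E := hw ▸ E.mul_mem hpE hpE
  have hcm : ∀ y ∈ E, e * e * y = y * (e * e) := by
    intro y _
    rw [he2, one_mul, mul_one]
  have hpP : p ∈ plus E hE.cm e heE := ⟨a, ha, by rw [hp, ha']⟩
  have hwP : w ∈ plus E hE.cm e heE := hw ▸ (plus E hE.cm e heE).mul_mem hpP hpP
  have hwe : w * e = e * w := plus_comm hE.cm heE hcm w hwP
  have hme1 : e⁻¹ * m * e = m⁻¹ := by
    calc e⁻¹ * m * e = (e⁻¹ * q * e) * (e⁻¹ * q * e) := by rw [hm]; group
      _ = m⁻¹ := by rw [hqe, hm]; group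
  have hme2 : e⁻¹ * m * e = m := by
    have h1 : m = z * w⁻¹ := by rw [← hmn]; group
    have h2 : w⁻¹ * e = e * w⁻¹ := by
      have : Commute w e := hwe
      exact this.inv_left
    calc e⁻¹ * m * e = e⁻¹ * z * (w⁻¹ * e) := by rw [h1]; group
      _ = e⁻¹ * (z * e) * w⁻¹ := by rw [h2]; group
      _ = z * w⁻¹ := by rw [hze]; group
      _ = m := h1.symm
  have hmm : m * m = 1 := by
    rw [hme2] at hme1
    exact mul_eq_one_iff_eq_inv.2 hme1
  have hem : e * m = m * e := by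
    calc e * m = e * (e⁻¹ * m * e) := by rw [hme2]
      _ = m * e := by group
  have hcase := dstar hG ih ht hD hn hE.dv hE.cm hEt hmE (by
    intro d _
    rw [hmm, one_mul, mul_one])
  have hmd : ∀ d ∈ D, m * d = d * m := by
    rcases hcase with h | h
    · exact h
    · exfalso
      -- conjugation by `q` and `x` generate a 3-cycle
      have hqeq : q⁻¹ * e * q = e * m := by
        have h1 : q⁻¹ * e = e * q := by
          calc q⁻¹ * e = (e⁻¹ * q * e) * e := by rw [hqe]
            _ = e⁻¹ * q * (e * e) := by group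
            _ = e * q := by rw [he2, heinv, mul_one]
        calc q⁻¹ * e * q = e * (q * q) := by rw [h1]; group
          _ = e * m := by rw [hm]
      have hmx : x⁻¹ * m * x = m * e := by
        have h1 : m⁻¹ * x⁻¹ * m = x := by
          calc m⁻¹ * x⁻¹ * m = (m⁻¹ * x * m)⁻¹ := by group
            _ = x := by rw [h x hx, inv_inv]
        calc x⁻¹ * m * x = m * (m⁻¹ * x⁻¹ * m) * x := by group
          _ = m * (x * x) := by rw [h1]; group
          _ = m * e := by rw [hxe]
      have hex : x⁻¹ * e * x = e := by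
        rw [← hxe]; group
      have hmq : q⁻¹ * m * q = m := by
        rw [hm]; group
      obtain ⟨g, hg⟩ : ∃ g, g = x * q := ⟨_, rfl⟩
      have g1 : g⁻¹ * e * g = e * m := by
        calc g⁻¹ * e * g = q⁻¹ * (x⁻¹ * e * x) * q := by rw [hg]; group
          _ = e * m := by rw [hex, hqeq]
      have g2 : g⁻¹ * m * g = e := by
        calc g⁻¹ * m * g = q⁻¹ * (x⁻¹ * m * x) * q := by rw [hg]; group
          _ = (q⁻¹ * m * q) * (q⁻¹ * e * q) := by rw [hmx]; group
          _ = m * (e * m) := by rw [hmq, hqeq]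
          _ = (m * m) * e := by rw [hem]; group
          _ = e := by rw [hmm, one_mul]
      have g3 : g⁻¹ * (e * m) * g = m := by
        calc g⁻¹ * (e * m) * g = (g⁻¹ * e * g) * (g⁻¹ * m * g) := by group
          _ = (m * e) * e := by rw [g1, g2, hem]
          _ = m := by rw [mul_assoc, he2, mul_one]
      have g4 := cube_comm hG (g := g) (x := e) (by rw [g1, g3, g2])
      have g5 : e * m = e := by
        rw [← g1]
        calc g⁻¹ * e * g = g⁻¹ * (e * g) := by group
          _ = g⁻¹ * (g * e) := by rw [g4]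
          _ = e := by group
      have g6 : m = 1 := mul_eq_left.1 g5
      apply hD1
      apply hD.dv.bot_of_invol
      intro d hd
      have := h d hd
      rw [g6] at this
      simp only [inv_one, one_mul, mul_one] at this
      exact mul_eq_one_iff_eq_inv.2 this
  refine ⟨w, plus E hE.cm e heE, ⟨plus_dv hE.cm heE hE.dv, ?_, ?_, hwP, ?_⟩, ?_⟩
  · intro b hb c hc
    exact hE.cm b (plus_le hE.cm heE hb) c (plus_le hE.cm heE hc)
  · intro b hb
    exact hEt b (plus_le hE.cm heE hb)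
  · intro d hd
    have h1 : w = m⁻¹ * z := by rw [← hmn]; group
    have h2 := hmd d hd
    calc w⁻¹ * d * w = z⁻¹ * (m * d) * m⁻¹ * z := by rw [h1]; group
      _ = z⁻¹ * d * z := by rw [h2]; group
      _ = d⁻¹ := hz.invD d hd
  · intro b hb
    exact plus_comm hE.cm heE hcm b hb

theorem zz_step2 (hG : IsPGroup 2 G) {n : ℕ} (ih : IHyp.{u} n) {t : G} {D : Subgroup G}
    (ht : t * t = 1) (hD : Core D (Subgroup.centralizer {t})) (hn : (soc D).ncard ≤ n)
    (hD1 : D ≠ ⊥) {z : G} {Q : Subgroup G} (hz : ZZ t D z Q) {e x y : G} (he : e ∈ D)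
    (he1 : e ≠ 1) (he2 : e * e = 1) (hx : x ∈ D) (hxe : x * x = e) (hy : y ∈ D)
    (hyx : y * y = x) (hQe : ∀ q ∈ Q, q * e = e * q) : False := by
  obtain ⟨E, hE, hQE, hEt⟩ := zz_core hG ih ht hD hn hD1 hz
  have heinv : e⁻¹ = e := by rw [inv_eq_iff_mul_eq_one]; exact he2
  obtain ⟨B, hB⟩ := (hE.cher.mono (inf_le_left :
    Subgroup.centralizer {z} ⊓ Subgroup.centralizer {e} ≤ _)).core hG
  have hQB : Q ≤ B := by
    refine hB.largest hG hz.dv ?_
    intro q hq
    refine ⟨?_, ?_⟩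
    · change q ∈ Subgroup.centralizer {z}
      rw [Subgroup.mem_centralizer_singleton_iff]
      exact hz.cm q hq z hz.mem
    · change q ∈ Subgroup.centralizer {e}
      rw [Subgroup.mem_centralizer_singleton_iff]
      exact hQe q hq
  have hBE : B ≤ E := hE.largest hG hB.dv (hB.le.trans inf_le_left)
  have hBt : ∀ b ∈ B, t * b * t = b⁻¹ := fun b hb => hEt b (hBE hb)
  have hBz : ∀ b ∈ B, b * z = z * b := fun b hb =>
    Subgroup.mem_centralizer_singleton_iff.1 (hB.le hb).1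
  have hBe : ∀ b ∈ B, b * e = e * b := fun b hb =>
    Subgroup.mem_centralizer_singleton_iff.1 (hB.le hb).2
  have hxz : x⁻¹ * z * x = z * e := by
    have h1 : z⁻¹ * x⁻¹ * z = x := by
      calc z⁻¹ * x⁻¹ * z = (z⁻¹ * x * z)⁻¹ := by group
        _ = x := by rw [hz.invD x hx, inv_inv]
    calc x⁻¹ * z * x = z * (z⁻¹ * x⁻¹ * z) * x := by group
      _ = z * (x * x) := by rw [h1]; group
      _ = z * e := by rw [hxe]
  have hxe' : x * e = e * x := by rw [← hxe]; group
  have hxB : ∀ b ∈ B, x⁻¹ * b * x ∈ B := by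
    have hle : cj x⁻¹ B ≤ B := by
      refine hB.largest hG hB.dv.cj ?_
      intro c hc
      rw [mem_cj, inv_inv] at hc
      obtain ⟨b, hb⟩ : ∃ b, b = x * c * x⁻¹ := ⟨_, rfl⟩
      rw [← hb] at hc
      have hcb : c = x⁻¹ * b * x := by rw [hb]; group
      have hce : c * e = e * c := by
        have h2 := hBe b hc
        have h3 : e * x⁻¹ = x⁻¹ * e := by
          calc e * x⁻¹ = x⁻¹ * (x * e) * x⁻¹ := by group
            _ = x⁻¹ * e := by rw [hxe']; group
        calc c * e = x⁻¹ * b * (x * e) := by rw [hcb]; group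
          _ = x⁻¹ * (b * e) * x := by rw [hxe']; group
          _ = (x⁻¹ * e) * b * x := by rw [h2]; group
          _ = e * c := by rw [← h3, hcb]; group
      have hcze : c * (z * e) = (z * e) * c := by
        have h4 := hBz b hc
        calc c * (z * e) = (x⁻¹ * b * x) * (x⁻¹ * z * x) := by rw [hxz, hcb]
          _ = x⁻¹ * (b * z) * x := by group
          _ = (x⁻¹ * z * x) * (x⁻¹ * b * x) := by rw [h4]; group
          _ = (z * e) * c := by rw [hxz, hcb]
      refine ⟨?_, ?_⟩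
      · change c ∈ Subgroup.centralizer {z}
        rw [Subgroup.mem_centralizer_singleton_iff]
        calc c * z = (c * (z * e)) * e⁻¹ := by group
          _ = z * (e * c) * e⁻¹ := by rw [hcze]; group
          _ = z * (c * e) * e⁻¹ := by rw [hce]
          _ = z * c := by group
      · change c ∈ Subgroup.centralizer {e}
        rw [Subgroup.mem_centralizer_singleton_iff]
        exact hce
    intro b hb
    apply hle
    rw [mem_cj]
    simpa [mul_assoc] using hb
  have hzB : z ∈ B := hQB hz.mem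
  obtain ⟨a, ha, haz⟩ := hB.dv.root 2 z hzB
  have hee : ∀ b ∈ B, x⁻¹ * (x⁻¹ * b * x) * x = b := by
    intro b hb
    calc x⁻¹ * (x⁻¹ * b * x) * x = (x * x)⁻¹ * b * (x * x) := by group
      _ = e⁻¹ * (b * e) := by rw [hxe]; group
      _ = b := by rw [hBe b hb]; group
  obtain ⟨a', ha'⟩ : ∃ a', a' = x⁻¹ * a * x := ⟨_, rfl⟩
  have ha'B : a' ∈ B := ha' ▸ hxB a ha
  have ha'x : x⁻¹ * a' * x = a := by rw [ha']; exact hee a ha
  obtain ⟨p, hp⟩ : ∃ p, p = a * a' := ⟨_, rfl⟩
  obtain ⟨q, hq⟩ : ∃ q, q = a * a'⁻¹ := ⟨_, rfl⟩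
  have hpB : p ∈ B := hp ▸ B.mul_mem ha ha'B
  have hqB : q ∈ B := hq ▸ B.mul_mem ha (B.inv_mem ha'B)
  have hqx : x⁻¹ * q * x = q⁻¹ := by
    calc x⁻¹ * q * x = (x⁻¹ * a * x) * (x⁻¹ * a' * x)⁻¹ := by rw [hq]; group
      _ = a' * a⁻¹ := by rw [ha'x, ← ha']
      _ = q⁻¹ := by rw [hq]; group
  have hpx : x⁻¹ * p * x = p := by
    calc x⁻¹ * p * x = (x⁻¹ * a * x) * (x⁻¹ * a' * x) := by rw [hp]; group
      _ = a' * a := by rw [ha'x, ← ha']
      _ = p := by rw [hp]; exact hB.cm _ ha'B _ ha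
  have hmn : (q * q) * (p * p) = z := by
    have h1 : q * p = p * q := hB.cm q hqB p hpB
    have h2 : q * p = a * a := by
      have h3 : a'⁻¹ * a = a * a'⁻¹ := hB.cm _ (B.inv_mem ha'B) _ ha
      calc q * p = a * (a'⁻¹ * a) * a' := by rw [hq, hp]; group
        _ = a * (a * a'⁻¹) * a' := by rw [h3]
        _ = a * a := by group
    calc (q * q) * (p * p) = q * (q * p) * p := by group
      _ = q * (p * q) * p := by rw [h1]
      _ = (q * p) * (q * p) := by group
      _ = (a * a) * (a * a) := by rw [h2]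
      _ = a ^ (2 ^ 2) := by rw [show (2 : ℕ) ^ 2 = 2 + 2 from rfl, pow_add, pow_two]
      _ = z := haz
  obtain ⟨m, hm⟩ : ∃ m, m = q * q := ⟨_, rfl⟩
  obtain ⟨w, hw⟩ : ∃ w, w = p * p := ⟨_, rfl⟩
  rw [← hm, ← hw] at hmn
  have hmB : m ∈ B := hm ▸ B.mul_mem hqB hqB
  have hwB : w ∈ B := hw ▸ B.mul_mem hpB hpB
  have hmx1 : x⁻¹ * m * x = m⁻¹ := by
    calc x⁻¹ * m * x = (x⁻¹ * q * x) * (x⁻¹ * q * x) := by rw [hm]; group
      _ = m⁻¹ := by rw [hqx, hm]; group
  have hwx : x⁻¹ * w * x = w := by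
    calc x⁻¹ * w * x = (x⁻¹ * p * x) * (x⁻¹ * p * x) := by rw [hw]; group
      _ = w := by rw [hpx, hw]
  have hmw : m * w = w * m := hB.cm m hmB w hwB
  have hmm : m * m = e := by
    have h1 : m⁻¹ * w = m * w * e := by
      calc m⁻¹ * w = (x⁻¹ * m * x) * (x⁻¹ * w * x) := by rw [hmx1, hwx]
        _ = x⁻¹ * (m * w) * x := by group
        _ = m * w * e := by rw [hmn, hxz]
    have h2 : m * m * e = 1 := by
      calc m * m * e = m * m * (e * w) * w⁻¹ := by group
        _ = m * m * (w * e) * w⁻¹ := by rw [hBe w hwB]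
        _ = m * (m * w * e) * w⁻¹ := by group
        _ = m * (m⁻¹ * w) * w⁻¹ := by rw [h1]
        _ = 1 := by group
    calc m * m = m * m * (e * e) := by rw [he2, mul_one]
      _ = (m * m * e) * e := by group
      _ = e := by rw [h2, one_mul]
  have hinvz : ∀ d ∈ D, z * d * z⁻¹ = d⁻¹ := by
    intro d hd
    have h1 := hz.invD _ (D.inv_mem hd)
    calc z * d * z⁻¹ = z * (z⁻¹ * d⁻¹ * z) * z⁻¹ := by rw [h1, inv_inv]
      _ = d⁻¹ := by group
  have hzz : ∀ d ∈ D, z * z * d = d * (z * z) := by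
    intro d hd
    have h1 : z * (z * d * z⁻¹) * z⁻¹ = d := by
      rw [hinvz d hd, hinvz _ (D.inv_mem hd), inv_inv]
    calc z * z * d = (z * (z * d * z⁻¹) * z⁻¹) * (z * z) := by group
      _ = d * (z * z) := by rw [h1]
  have hww : ∀ d ∈ D, w * w * d = d * (w * w) := by
    intro d hd
    have h1 : w = z * m⁻¹ := by
      calc w = (w * m) * m⁻¹ := by group
        _ = z * m⁻¹ := by rw [← hmw, hmn]
    have h2 : m⁻¹ * z = z * m⁻¹ := hB.cm _ (B.inv_mem hmB) _ hzB
    have h3 : w * w = z * z * e := by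
      calc w * w = z * (m⁻¹ * z) * m⁻¹ := by rw [h1]; group
        _ = z * (z * m⁻¹) * m⁻¹ := by rw [h2]
        _ = z * z * (m * m)⁻¹ := by group
        _ = z * z * e := by rw [hmm, heinv]
    have h4 : e * d = d * e := hD.cm e he d hd
    rw [h3]
    calc z * z * e * d = z * z * (e * d) := by group
      _ = (z * z * d) * e := by rw [h4]; group
      _ = d * (z * z * e) := by rw [hzz d hd]; group
  have hcase := dstar hG ih ht hD hn hB.dv hB.cm hBt hwB hww
  have hwd : ∀ d ∈ D, w * d = d * w := by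
    rcases hcase with h | h
    · exact h
    · exfalso
      have h1 := h x hx
      have h2 : w⁻¹ * x * w = x := by
        calc w⁻¹ * x * w = w⁻¹ * x * (x⁻¹ * w * x) := by rw [hwx]
          _ = x := by group
      rw [h2] at h1
      apply he1
      rw [← hxe]
      exact mul_eq_one_iff_eq_inv.2 h1
  have hmd : ∀ d ∈ D, m⁻¹ * d * m = d⁻¹ := by
    intro d hd
    have h1 : m = z * w⁻¹ := by rw [← hmn]; group
    have h2 := hwd _ (D.inv_mem hd)
    calc m⁻¹ * d * m = w * (z⁻¹ * d * z) * w⁻¹ := by rw [h1]; group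
      _ = (w * d⁻¹) * w⁻¹ := by rw [hz.invD d hd]
      _ = d⁻¹ := by rw [h2]; group
  -- the quaternion group and the 3-cycle
  have hmy : y⁻¹ * m * y = m * x := by
    have h1 : m⁻¹ * y⁻¹ * m = y := by
      calc m⁻¹ * y⁻¹ * m = (m⁻¹ * y * m)⁻¹ := by group
        _ = y := by rw [hmd y hy, inv_inv]
    calc y⁻¹ * m * y = m * (m⁻¹ * y⁻¹ * m) * y := by group
      _ = m * (y * y) := by rw [h1]; group
      _ = m * x := by rw [hyx]
  have hxq : q⁻¹ * x * q = x * m := by
    have h1 : q⁻¹ * x = x * q := by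
      calc q⁻¹ * x = x * (x⁻¹ * q⁻¹ * x) := by group
        _ = x * (x⁻¹ * q * x)⁻¹ := by group
        _ = x * q := by rw [hqx, inv_inv]
    calc q⁻¹ * x * q = x * (q * q) := by rw [h1]; group
      _ = x * m := by rw [hm]
  have hxy : y⁻¹ * x * y = x := by rw [← hyx]; group
  have hmq : q⁻¹ * m * q = m := by rw [hm]; group
  have hxm : x * m = m * x⁻¹ := by
    calc x * m = m * (m⁻¹ * x * m) := by group
      _ = m * x⁻¹ := by rw [hmd x hx]
  obtain ⟨g, hg⟩ : ∃ g, g = y * q := ⟨_, rfl⟩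
  have g1 : g⁻¹ * x * g = x * m := by
    calc g⁻¹ * x * g = q⁻¹ * (y⁻¹ * x * y) * q := by rw [hg]; group
      _ = x * m := by rw [hxy, hxq]
  have g2 : g⁻¹ * m * g = x := by
    calc g⁻¹ * m * g = q⁻¹ * (y⁻¹ * m * y) * q := by rw [hg]; group
      _ = (q⁻¹ * m * q) * (q⁻¹ * x * q) := by rw [hmy]; group
      _ = m * (m * x⁻¹) := by rw [hmq, hxq, hxm]
      _ = (m * m) * x⁻¹ := by group
      _ = x := by rw [hmm, ← hxe]; group
  have g3 : g⁻¹ * (x * m) * g = m := by
    have h1 : m * x = x⁻¹ * m := by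
      calc m * x = x⁻¹ * (x * m) * x := by group
        _ = x⁻¹ * m := by rw [hxm]; group
    calc g⁻¹ * (x * m) * g = (g⁻¹ * x * g) * (g⁻¹ * m * g) := by group
      _ = x * (m * x) := by rw [g1, g2]; group
      _ = m := by rw [h1]; group
  have g4 := cube_comm hG (g := g) (x := x) (by rw [g1, g3, g2])
  have g5 : x * m = x := by
    rw [← g1]
    calc g⁻¹ * x * g = g⁻¹ * (x * g) := by group
      _ = g⁻¹ * (g * x) := by rw [g4]
      _ = x := by group
  have g6 : m = 1 := mul_eq_left.1 g5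
  apply he1
  rw [← hmm, g6, mul_one]

/-- divisible abelian subgroups inverted by `t` centralize `D` -/
theorem zprime (hG : IsPGroup 2 G) {n : ℕ} (ih : IHyp.{u} n) {t : G} {D : Subgroup G}
    (ht : t * t = 1) (hD : Core D (Subgroup.centralizer {t})) (hn : (soc D).ncard ≤ n)
    (hD1 : D ≠ ⊥) {Q : Subgroup G} (hQ : Dv Q) (hQcm : Cm Q) (hQt : ∀ q ∈ Q, t * q * t = q⁻¹) :
    ∀ q ∈ Q, ∀ d ∈ D, q * d = d * q := by
  classical
  by_contra hcon
  push Not at hcon
  obtain ⟨q, hq, d0, hd0, hne⟩ := hcon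
  have hex : ∃ k : ℕ, ∀ d ∈ D, q ^ (2 ^ k) * d = d * q ^ (2 ^ k) := by
    obtain ⟨k, hk⟩ := hG q
    exact ⟨k, fun d _ => by rw [hk, one_mul, mul_one]⟩
  set k := Nat.find hex with hk
  have hk1 := Nat.find_spec hex
  have hk0 : k ≠ 0 := by
    intro h0
    apply hne
    have := hk1 d0 hd0
    rw [← hk, h0] at this
    simpa using this
  have hk2 := Nat.find_min hex (m := k - 1) (by omega)
  have hzz : ∀ d ∈ D, q ^ (2 ^ (k - 1)) * q ^ (2 ^ (k - 1)) * d =
      d * (q ^ (2 ^ (k - 1)) * q ^ (2 ^ (k - 1))) := by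
    intro d hd
    rw [← pow_add, ← two_mul, ← pow_succ', show k - 1 + 1 = k by omega]
    exact hk1 d hd
  rcases dstar hG ih ht hD hn hQ hQcm hQt (Q.pow_mem hq (2 ^ (k - 1))) hzz with h | h
  · exact hk2 h
  · obtain ⟨e, he, he1, he2⟩ := exists_invol_mem hG hD1
    obtain ⟨x, hx, hxe⟩ := hD.dv e he
    obtain ⟨y, hy, hyx⟩ := hD.dv x hx
    obtain ⟨z', Q', hz', hQ'⟩ := zz_step1 hG ih ht hD hn hD1
      ⟨hQ, hQcm, hQt, Q.pow_mem hq (2 ^ (k - 1)), h⟩ he he2 hx hxe
    exact zz_step2 hG ih ht hD hn hD1 hz' he he1 he2 hx hxe hy hyx hQ'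

end main

end Run7.h79
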