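import Mathlib
import Pool.Agent.Run7.h79.Main

/-!
2-groups with an element with finite centralizer are of Chernikov type; finitely generated
infinite 2-groups have all centralizers infinite.
-/

set_option autoImplicit false

namespace Run7.h79

open Subgroup

universe u

section final

variable {G : Type u} [Group G]

theorem cj_centralizer_singleton (h t : G) :
    cj h (Subgroup.centralizer {t}) = Subgroup.centralizer {h * t * h⁻¹} := by
  ext x
  rw [mem_cj, Subgroup.mem_centralizer_singleton_iff, Subgroup.mem_centralizer_singleton_iff]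
  constructor
  · intro hx
    calc x * (h * t * h⁻¹) = h * ((h⁻¹ * x * h) * t) * h⁻¹ := by group
      _ = h * (t * (h⁻¹ * x * h)) * h⁻¹ := by rw [hx]
      _ = h * t * h⁻¹ * x := by group
  · intro hx
    calc h⁻¹ * x * h * t = h⁻¹ * (x * (h * t * h⁻¹)) * h := by group
      _ = h⁻¹ * (h * t * h⁻¹ * x) * h := by rw [hx]
      _ = t * (h⁻¹ * x * h) := by group

theorem cj_centralizer (h : G) (D : Subgroup G) :
    cj h (Subgroup.centralizer (D : Set G)) = Subgroup.centralizer (cj h D : Set G) := by
  ext x
  rw [mem_cj, Subgroup.mem_centralizer_iff, Subgroup.mem_centralizer_iff]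
  constructor
  · intro hx d hd
    have h1 := hx _ (mem_cj.1 hd)
    calc d * x = h * ((h⁻¹ * d * h) * (h⁻¹ * x * h)) * h⁻¹ := by group
      _ = h * ((h⁻¹ * x * h) * (h⁻¹ * d * h)) * h⁻¹ := by rw [h1]
      _ = x * d := by group
  · intro hx d hd
    have h1 := hx (h * d * h⁻¹) (mem_cj.2 (by simpa [mul_assoc] using hd))
    calc d * (h⁻¹ * x * h) = h⁻¹ * ((h * d * h⁻¹) * x) * h := by group
      _ = h⁻¹ * (x * (h * d * h⁻¹)) * h := by rw [h1]
      _ = h⁻¹ * x * h * d := by group

theorem cj_cj (g h : G) (D : Subgroup G) : cj g (cj h D) = cj (g * h) D := by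
  ext x
  rw [mem_cj, mem_cj, mem_cj]
  have : h⁻¹ * (g⁻¹ * x * g) * h = (g * h)⁻¹ * x * (g * h) := by group
  rw [this]

theorem cj_one (D : Subgroup G) : cj 1 D = D := by
  ext x
  rw [mem_cj]
  simp

theorem soc_cj (h : G) (D : Subgroup G) : (soc (cj h D)).ncard = (soc D).ncard := by
  have : soc (cj h D) = (fun x => h * x * h⁻¹) '' soc D := by
    ext x
    constructor
    · rintro ⟨hx, hx2⟩
      rw [mem_cj] at hx
      refine ⟨h⁻¹ * x * h, ⟨hx, ?_⟩, by group⟩
      calc h⁻¹ * x * h * (h⁻¹ * x * h) = h⁻¹ * (x * x) * h := by group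
        _ = 1 := by rw [hx2]; group
    · rintro ⟨y, ⟨hy, hy2⟩, rfl⟩
      refine ⟨mem_cj.2 (by simpa [mul_assoc] using hy), ?_⟩
      calc h * y * h⁻¹ * (h * y * h⁻¹) = h * (y * y) * h⁻¹ := by group
        _ = 1 := by rw [hy2]; group
  rw [this]
  refine Set.ncard_image_of_injective _ ?_
  intro a b hab
  have hab : h * a * h⁻¹ = h * b * h⁻¹ := hab
  simpa using hab

theorem cj_eq_of_le (hG : IsPGroup 2 G) {A : Subgroup G} {h : G} (hle : A ≤ cj h A) :
    cj h A = A := by
  have hpow : ∀ k : ℕ, A ≤ cj (h ^ k) A := by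
    intro k
    induction k with
    | zero => rw [pow_zero, cj_one]
    | succ k ih =>
      rw [pow_succ', ← cj_cj]
      exact hle.trans (cj_mono ih)
  obtain ⟨n, hn⟩ := hG h
  have h1 := hpow (2 ^ n - 1)
  have h2 : h * h ^ (2 ^ n - 1) = 1 := by
    rw [← pow_succ', Nat.sub_add_cancel Nat.one_le_two_pow, hn]
  refine le_antisymm ?_ hle
  have h3 := cj_mono (h := h) h1
  rw [cj_cj, h2, cj_one] at h3
  exact h3

theorem dist_step (hG : IsPGroup 2 G) {n : ℕ} (ih : IHyp.{u} n) {t : G} {D : Subgroup G}
    (ht : t * t = 1) (hD : Core D (Subgroup.centralizer {t})) (hn : (soc D).ncard ≤ n)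
    (hD1 : D ≠ ⊥) {A : Subgroup G} (hA : Core A (Subgroup.centralizer (D : Set G))) :
    ∀ s : ℕ, ∀ h : G, (t * (h * t * h⁻¹)) ^ (2 ^ s) = 1 → cj h A = A := by
  have hDA : D ≤ A := by
    refine hA.largest hG hD.dv ?_
    intro d hd
    rw [Subgroup.mem_centralizer_iff]
    intro b hb
    exact hD.cm b hb d hd
  intro s
  induction s with
  | zero =>
    intro h hh
    have h1 : h * t * h⁻¹ = t := by
      have h2 : t * (h * t * h⁻¹) = 1 := by simpa using hh
      calc h * t * h⁻¹ = (t * t) * (h * t * h⁻¹) := by rw [ht, one_mul]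
        _ = t * (t * (h * t * h⁻¹)) := by simp only [mul_assoc]
        _ = t := by rw [h2, mul_one]
    have h2 := hD.cj (h := h)
    rw [cj_centralizer_singleton, h1] at h2
    have h3 := h2.unique hG hD
    have h4 := hA.cj (h := h)
    rw [cj_centralizer, h3] at h4
    exact h4.unique hG hA
  | succ s ihs =>
    intro h hh
    obtain ⟨j, hj⟩ : ∃ j, j = h * t * h⁻¹ := ⟨_, rfl⟩
    have hjj : j * j = 1 := by
      calc j * j = h * (t * t) * h⁻¹ := by rw [hj]; group
        _ = 1 := by rw [ht]; group
    have hjinv : j⁻¹ = j := by rw [inv_eq_iff_mul_eq_one]; exact hjj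
    rw [← hj] at hh
    have hjA : cj j A = A := by
      apply ihs j
      have h1 : t * (j * t * j⁻¹) = (t * j) ^ 2 := by
        rw [hjinv, pow_two]; simp only [mul_assoc]
      rw [h1, ← pow_mul, ← pow_succ']
      exact hh
    have hjA' : ∀ a ∈ A, j⁻¹ * a * j ∈ A := by
      intro a ha
      rw [← hjA] at ha
      exact mem_cj.1 ha
    have hDh := hD.cj (h := h)
    rw [cj_centralizer_singleton, ← hj] at hDh
    have hAh := hA.cj (h := h)
    rw [cj_centralizer] at hAh
    have hnh : (soc (cj h D)).ncard ≤ n := by rw [soc_cj]; exact hn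
    have hDh1 : cj h D ≠ ⊥ := by
      intro h0
      apply hD1
      rw [eq_bot_iff]
      intro d hd
      have h1 : h * d * h⁻¹ ∈ cj h D := mem_cj.2 (by simpa [mul_assoc] using hd)
      rw [h0, Subgroup.mem_bot] at h1
      rw [Subgroup.mem_bot]
      calc d = h⁻¹ * (h * d * h⁻¹) * h := by group
        _ = 1 := by rw [h1]; group
    by_cases hP : plus A hA.cm j hjA' = ⊥
    · exfalso
      have hinv : ∀ a ∈ A, j * a * j = a⁻¹ := by
        intro a ha
        have h1 : a * (j⁻¹ * a * j) ∈ plus A hA.cm j hjA' := ⟨a, ha, rfl⟩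
        rw [hP, Subgroup.mem_bot, hjinv] at h1
        exact (inv_eq_of_mul_eq_one_right h1).symm
      have hz := zprime hG ih hjj hDh hnh hDh1 hD.dv hD.cm (fun q hq => hinv q (hDA hq))
      have hle : cj h D ≤ A := by
        refine hA.largest hG hDh.dv ?_
        intro w hw
        rw [Subgroup.mem_centralizer_iff]
        intro d hd
        exact hz d hd w hw
      apply hDh1
      apply hDh.dv.bot_of_invol
      intro w hw
      have h1 := hinv w (hle hw)
      have h2 := Subgroup.mem_centralizer_singleton_iff.1 (hDh.le hw)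
      have h3 : j * w * j = w := by
        rw [mul_assoc, h2, ← mul_assoc, hjj, one_mul]
      rw [h3] at h1
      exact mul_eq_one_iff_eq_inv.2 h1
    · have hPdv := plus_dv hA.cm hjA' hA.dv
      have hPD : plus A hA.cm j hjA' ≤ cj h D := by
        refine hDh.largest hG hPdv ?_
        intro w hw
        rw [Subgroup.mem_centralizer_singleton_iff]
        refine plus_comm hA.cm hjA' ?_ w hw
        intro d _
        rw [hjj, one_mul, mul_one]
      have hle : A ≤ cj h A := by
        refine le_core hG ih hjj hDh hnh hAh hPD hPdv hP hA.dv ?_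
        intro a ha
        rw [Subgroup.mem_centralizer_iff]
        intro b hb
        exact hA.cm b (plus_le hA.cm hjA' hb) a ha
      exact cj_eq_of_le hG hle

theorem main_step (hG : IsPGroup 2 G) {n : ℕ} (ih : IHyp.{u} n) {t : G} {D : Subgroup G}
    (ht : t * t = 1) (hD : Core D (Subgroup.centralizer {t})) (hn : (soc D).ncard ≤ n) :
    Cher G := by
  by_cases hD1 : D = ⊥
  · have hfin : ((Subgroup.centralizer {t} : Subgroup G) : Set G).Finite := by
      refine Cov.finite hD.cov ?_
      rw [hD1]
      simp
    exact cher_of_invol _ G hG t ht hfin rfl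
  · obtain ⟨A, hA⟩ := (cher_centralizer hG ih ht hD hn D le_rfl hD.dv hD1).core hG
    have hDA : D ≤ A := by
      refine hA.largest hG hD.dv ?_
      intro d hd
      rw [Subgroup.mem_centralizer_iff]
      intro b hb
      exact hD.cm b hb d hd
    have hcj : ∀ h : G, cj h A = A := by
      intro h
      obtain ⟨s, hs⟩ := hG (t * (h * t * h⁻¹))
      exact dist_step hG ih ht hD hn hD1 hA s h hs
    have hAn : A.Normal := by
      constructor
      intro a ha g
      rw [← hcj g, mem_cj]
      simpa [mul_assoc] using ha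
    refine cher_of_div_normal hG A hA.cm hA.sc ?_
    have htinv : t⁻¹ = t := by rw [inv_eq_iff_mul_eq_one]; exact ht
    have hY' : Cov (Subgroup.centralizer {t})
        {y : G | ∃ e, (e ∈ A ∧ e * e = 1) ∧ y * t * y⁻¹ = e * t} := by
      refine Cov.of_fiber (fun y => y * t * y⁻¹) ((hA.sc.image (fun b => b * t)).subset ?_) ?_
      · rintro _ ⟨y, ⟨e, he, hye⟩, rfl⟩
        exact ⟨e, he, hye.symm⟩
      · intro y _ y' _ hyy
        have hyy : y * t * y⁻¹ = y' * t * y'⁻¹ := hyy
        rw [Subgroup.mem_centralizer_singleton_iff]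
        calc y⁻¹ * y' * t = y⁻¹ * (y' * t * y'⁻¹) * y' := by group
          _ = y⁻¹ * (y * t * y⁻¹) * y' := by rw [hyy]
          _ = t * (y⁻¹ * y') := by group
    obtain ⟨F, hF, hcov⟩ := (hY'.trans hD.cov).sup hDA
    have hfin : ((Subgroup.centralizer {(QuotientGroup.mk' A t)} : Subgroup (G ⧸ A)) :
        Set (G ⧸ A)).Finite := by
      refine (hF.image (QuotientGroup.mk' A)).subset ?_
      intro q hq
      obtain ⟨y, rfl⟩ := QuotientGroup.mk'_surjective A q
      have hq' := Subgroup.mem_centralizer_singleton_iff.1 hq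
      have ha : (y * t * y⁻¹) * t⁻¹ ∈ A := by
        rw [← QuotientGroup.eq_one_iff]
        change (QuotientGroup.mk' A) ((y * t * y⁻¹) * t⁻¹) = 1
        rw [map_mul, map_mul, map_mul, map_inv, map_inv, hq']
        group
      obtain ⟨a, hadef⟩ : ∃ a, a = (y * t * y⁻¹) * t⁻¹ := ⟨_, rfl⟩
      rw [← hadef] at ha
      have hyt : y * t * y⁻¹ = a * t := by rw [hadef]; group
      have hata : t * a * t = a⁻¹ := by
        have h1 : (a * t) * (a * t) = 1 := by
          rw [← hyt]
          calc y * t * y⁻¹ * (y * t * y⁻¹) = y * (t * t) * y⁻¹ := by group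
            _ = 1 := by rw [ht]; group
        rw [eq_inv_iff_mul_eq_one]
        calc t * a * t * a = t * ((a * t) * (a * t)) * t⁻¹ := by group
          _ = 1 := by rw [h1]; group
      obtain ⟨b, hb, hba⟩ := hA.dv a ha
      have htb : t * b * t ∈ A := by
        have := hAn.conj_mem b hb t
        rwa [htinv] at this
      obtain ⟨e, he⟩ : ∃ e, e = b * (t * b * t) := ⟨_, rfl⟩
      have heA : e ∈ A := he ▸ A.mul_mem hb htb
      have hcomm : b * (t * b * t) = (t * b * t) * b := hA.cm b hb _ htb
      have hee : e * e = 1 := by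
        calc e * e = b * ((t * b * t) * b) * (t * b * t) := by rw [he]; group
          _ = b * (b * (t * b * t)) * (t * b * t) := by rw [hcomm]
          _ = (b * b) * (t * b * (t * t) * b * t) := by simp only [mul_assoc]
          _ = (b * b) * (t * (b * b) * t) := by rw [ht]; simp only [mul_assoc, one_mul]
          _ = 1 := by rw [hba, hata, mul_inv_cancel]
      have heinv : e⁻¹ = e := by rw [inv_eq_iff_mul_eq_one]; exact hee
      -- `b⁻¹ y` conjugates `t` to `e t`
      have hbt : b⁻¹ * (a * t) * b = e * t := by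
        have h1 : t * b = (t * b * t) * t := by
          calc t * b = t * b * (t * t) := by rw [ht, mul_one]
            _ = (t * b * t) * t := by simp only [mul_assoc]
        calc b⁻¹ * (a * t) * b = b⁻¹ * (b * b) * (t * b) := by rw [hba]; group
          _ = b * (t * b) := by group
          _ = b * ((t * b * t) * t) := by rw [← h1]
          _ = e * t := by rw [he]; group
      have hmem : b⁻¹ * y ∈ {y : G | ∃ e, (e ∈ A ∧ e * e = 1) ∧ y * t * y⁻¹ = e * t} := by
        refine ⟨e, ⟨heA, hee⟩, ?_⟩
        calc b⁻¹ * y * t * (b⁻¹ * y)⁻¹ = b⁻¹ * (y * t * y⁻¹) * b := by group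
          _ = b⁻¹ * (a * t) * b := by rw [hyt]
          _ = e * t := hbt
      obtain ⟨f, hf, hfy⟩ := hcov _ hmem
      refine ⟨f, hf, ?_⟩
      have h1 : QuotientGroup.mk' A f = QuotientGroup.mk' A (b⁻¹ * y) := QuotientGroup.eq.2 hfy
      have h2 : QuotientGroup.mk' A b⁻¹ = 1 := (QuotientGroup.eq_one_iff _).2 (A.inv_mem hb)
      rw [h1, map_mul, h2, one_mul]
    exact cher_of_invol _ (G ⧸ A) (hG.to_quotient A) (QuotientGroup.mk' A t)
      (by rw [← map_mul, ht, map_one]) hfin rfl

end final

theorem ihyp_all : ∀ n : ℕ, IHyp.{u} n := by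
  intro n
  induction n with
  | zero =>
    intro H _ _ t D _ _ hlt
    exact absurd hlt (Nat.not_lt_zero _)
  | succ n ih =>
    intro H _ hH t D ht hD hlt
    exact main_step hH ih ht hD (by omega)

/-- **A 2-group with an involution whose centralizer is of Chernikov type is of Chernikov type.** -/
theorem cher_of_invol_cher {G : Type u} [Group G] (hG : IsPGroup 2 G) {t : G} (ht : t * t = 1)
    (h : CherS (Subgroup.centralizer {t} : Subgroup G)) : Cher G := by
  obtain ⟨D, hD⟩ := h.core hG
  exact ihyp_all _ G hG t D ht hD (Nat.lt_succ_self _)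

/-- **A 2-group with an element with finite centralizer is of Chernikov type.** -/
theorem cher_of_finite_centralizer : ∀ (k : ℕ) (G : Type u) [Group G], IsPGroup 2 G → ∀ x : G,
    x ^ (2 ^ k) = 1 → ((Subgroup.centralizer {x} : Subgroup G) : Set G).Finite → Cher G := by
  intro k
  induction k with
  | zero =>
    intro G _ hG x hx hfin
    have hx1 : x = 1 := by simpa using hx
    have : Finite G := by
      rw [← Set.finite_univ_iff]
      refine hfin.subset ?_
      intro y _
      change y ∈ Subgroup.centralizer {x}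
      rw [Subgroup.mem_centralizer_singleton_iff, hx1]
      simp
    exact cher_of_finite
  | succ k ih =>
    intro G _ hG x hx hfin
    obtain ⟨t, ht⟩ : ∃ t, t = x ^ (2 ^ k) := ⟨_, rfl⟩
    have htt : t * t = 1 := by
      rw [ht, ← pow_add, ← two_mul, ← pow_succ']
      exact hx
    refine cher_of_invol_cher hG htt ?_
    set K : Subgroup G := Subgroup.centralizer {t} with hK
    have hxK : x ∈ K := by
      rw [hK, Subgroup.mem_centralizer_singleton_iff, ht, ← pow_succ', ← pow_succ]
    have htK : t ∈ K := by
      rw [hK, Subgroup.mem_centralizer_singleton_iff]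
    apply Cher.toS
    let t' : K := ⟨t, htK⟩
    let x' : K := ⟨x, hxK⟩
    let N : Subgroup K :=
      { carrier := {y | y = 1 ∨ y = t'}
        mul_mem' := by
          rintro a b (rfl | rfl) (rfl | rfl)
          · left; simp
          · right; simp
          · right; simp
          · left; exact Subtype.ext htt
        one_mem' := Or.inl rfl
        inv_mem' := by
          rintro a (rfl | rfl)
          · left; simp
          · right
            rw [inv_eq_iff_mul_eq_one]
            exact Subtype.ext htt }
    have hN : N.Normal := by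
      constructor
      rintro a (rfl | rfl) g
      · left; simp
      · right
        have h1 : g * t' = t' * g :=
          Subtype.ext (Subgroup.mem_centralizer_singleton_iff.1 g.2)
        rw [h1, mul_inv_cancel_right]
    have hNf : (N : Set K).Finite := by
      refine (Set.toFinite {1, t'}).subset ?_
      rintro a (h | h)
      · left; exact h
      · right; exact h
    have hfin' : ((Subgroup.centralizer {x'} : Subgroup K) : Set K).Finite := by
      refine Set.Finite.of_finite_image (f := K.subtype) (hfin.subset ?_) K.subtype_injective.injOn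
      rintro _ ⟨a, ha, rfl⟩
      have h1 := Subgroup.mem_centralizer_singleton_iff.1 ha
      exact Subgroup.mem_centralizer_singleton_iff.2 (congrArg Subtype.val h1)
    refine cher_of_fin_normal (hG.to_subgroup K) N hNf ?_
    refine ih (K ⧸ N) ((hG.to_subgroup K).to_quotient N) (QuotientGroup.mk' N x') ?_
      (finite_centralizer_quot N hNf x' hfin')
    rw [← map_pow]
    refine (QuotientGroup.eq_one_iff _).2 ?_
    right
    exact Subtype.ext ht.symm

/-- **In a finitely generated infinite 2-group all centralizers are infinite.** -/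
theorem infinite_centralizer {G : Type u} [Group G] (hG : IsPGroup 2 G) [Group.FG G] [Infinite G]
    (x : G) : ((Subgroup.centralizer {x} : Subgroup G) : Set G).Infinite := by
  intro hfin
  obtain ⟨k, hk⟩ := hG x
  have h1 := cher_of_finite_centralizer k G hG x hk hfin
  have h2 := finite_of_cher_fg hG h1
  exact not_finite G

end Run7.h79
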