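import Mathlib

/-!
Basic facts on Golod groups: they are finitely generated infinite p-groups.
-/

set_option autoImplicit false

namespace Run7.h79

open Subgroup

open scoped Pointwise

universe u v

section golod

variable {K : Type u} [Field K] {B : Type v} [Ring B] [Algebra K B]

theorem one_add_pow_eq_one (p : ℕ) [Fact p.Prime] [CharP B p] {a : B} (ha : IsNilpotent a) :
    ∃ n : ℕ, (1 + a) ^ (p ^ n) = 1 := by
  obtain ⟨m, hm⟩ := ha
  refine ⟨m, ?_⟩
  rw [add_pow_char_pow_of_commute p m (Commute.one_left a), one_pow]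
  have h1 : m ≤ p ^ m := (Nat.lt_pow_self (Fact.out : p.Prime).one_lt).le
  rw [pow_eq_zero_of_le h1 hm, add_zero]

/-- units congruent to one modulo a nil subalgebra -/
def congrUnits (p : ℕ) [Fact p.Prime] [CharP B p] (A : NonUnitalSubalgebra K B)
    (hA : ∀ a ∈ A, IsNilpotent a) : Subgroup Bˣ where
  carrier := {w | (w : B) - 1 ∈ A}
  mul_mem' := by
    intro a b ha hb
    have : ((a * b : Bˣ) : B) - 1 = ((a : B) - 1) * ((b : B) - 1) + ((a : B) - 1) + ((b : B) - 1) := by
      push_cast; noncomm_ring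
    change ((a * b : Bˣ) : B) - 1 ∈ A
    rw [this]
    exact A.add_mem (A.add_mem (A.mul_mem ha hb) ha) hb
  one_mem' := by
    change ((1 : Bˣ) : B) - 1 ∈ A
    simp
  inv_mem' := by
    intro a ha
    have hmem : ∀ n : ℕ, ((a ^ n : Bˣ) : B) - 1 ∈ A := by
      intro n
      induction n with
      | zero => simp
      | succ n ih =>
        have : ((a ^ (n + 1) : Bˣ) : B) - 1 =
            (((a ^ n : Bˣ) : B) - 1) * ((a : B) - 1) + (((a ^ n : Bˣ) : B) - 1) + ((a : B) - 1) := by
          rw [pow_succ]; push_cast; noncomm_ring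
        rw [this]
        exact A.add_mem (A.add_mem (A.mul_mem ih ha) ih) ha
    obtain ⟨n, hn⟩ := one_add_pow_eq_one p (hA _ ha)
    have h1 : a ^ (p ^ n) = 1 := by
      apply Units.ext
      push_cast
      simpa using hn
    have hpos : 0 < p ^ n := pow_pos (Fact.out : p.Prime).pos n
    have h2 : a⁻¹ = a ^ (p ^ n - 1) := by
      rw [inv_eq_iff_mul_eq_one, ← pow_succ', Nat.sub_add_cancel hpos, h1]
    change ((a⁻¹ : Bˣ) : B) - 1 ∈ A
    rw [h2]
    exact hmem _

theorem golod_le (p : ℕ) [Fact p.Prime] [CharP B p] {r : ℕ} (y : Fin r → B)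
    (hnil : ∀ a ∈ NonUnitalAlgebra.adjoin K (Set.range y), IsNilpotent a) :
    Subgroup.closure {w : Bˣ | ∃ i, (w : B) = 1 + y i} ≤
      congrUnits p (NonUnitalAlgebra.adjoin K (Set.range y)) hnil := by
  rw [Subgroup.closure_le]
  rintro w ⟨i, hw⟩
  change (w : B) - 1 ∈ NonUnitalAlgebra.adjoin K (Set.range y)
  rw [hw, add_sub_cancel_left]
  exact NonUnitalAlgebra.subset_adjoin K ⟨i, rfl⟩

theorem golod_isPGroup (p : ℕ) [Fact p.Prime] [CharP B p] {r : ℕ} (y : Fin r → B)
    (hnil : ∀ a ∈ NonUnitalAlgebra.adjoin K (Set.range y), IsNilpotent a) :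
    IsPGroup p (Subgroup.closure {w : Bˣ | ∃ i, (w : B) = 1 + y i}) := by
  rintro ⟨w, hw⟩
  obtain ⟨n, hn⟩ := one_add_pow_eq_one p (hnil _ (golod_le p y hnil hw))
  refine ⟨n, Subtype.ext (Units.ext ?_)⟩
  push_cast
  simpa using hn

theorem golod_fg {r : ℕ} (y : Fin r → B) :
    Group.FG (Subgroup.closure {w : Bˣ | ∃ i, (w : B) = 1 + y i}) := by
  classical
  have hfin : {w : Bˣ | ∃ i, (w : B) = 1 + y i}.Finite := by
    have h1 : ((fun w : Bˣ => (w : B)) '' {w : Bˣ | ∃ i, (w : B) = 1 + y i}).Finite := by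
      refine (Set.finite_range (fun i => 1 + y i)).subset ?_
      rintro _ ⟨w, ⟨i, hi⟩, rfl⟩
      exact ⟨i, hi.symm⟩
    exact Set.Finite.of_finite_image h1 (fun a _ b _ hab => Units.ext hab)
  exact (Group.fg_iff_subgroup_fg _).2 ⟨hfin.toFinset, by simp⟩

theorem golod_infinite (p : ℕ) [Fact p.Prime] [CharP B p] {r : ℕ} (y : Fin r → B)
    (hnil : ∀ a ∈ NonUnitalAlgebra.adjoin K (Set.range y), IsNilpotent a)
    (hne : ∀ n : ℕ, ∃ w : Fin n → Fin r, (List.ofFn (fun i => y (w i))).prod ≠ 0) :
    Infinite (Subgroup.closure {w : Bˣ | ∃ i, (w : B) = 1 + y i}) := by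
  classical
  set G : Subgroup Bˣ := Subgroup.closure {w : Bˣ | ∃ i, (w : B) = 1 + y i} with hG
  by_contra hfin
  rw [not_infinite_iff_finite] at hfin
  let S : Set B := (fun w : Bˣ => (w : B)) '' (G : Set Bˣ)
  have hS : S.Finite := (Set.toFinite (G : Set Bˣ)).image _
  have hSmul : S * S ⊆ S := by
    rintro _ ⟨_, ⟨a, ha, rfl⟩, _, ⟨b, hb, rfl⟩, rfl⟩
    exact ⟨a * b, G.mul_mem ha hb, by push_cast; rfl⟩
  let M : Submodule ℤ B := Submodule.span ℤ S
  have hMmul : ∀ a ∈ M, ∀ b ∈ M, a * b ∈ M := by
    intro a ha b hb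
    have h1 : a * b ∈ M * M := Submodule.mul_mem_mul ha hb
    have h2 : M * M ≤ M := by
      change Submodule.span ℤ S * Submodule.span ℤ S ≤ _
      rw [Submodule.span_mul_span]
      exact Submodule.span_mono hSmul
    exact h2 h1
  have hM1 : (1 : B) ∈ M := Submodule.subset_span ⟨1, G.one_mem, by simp⟩
  have hMy : ∀ i, y i ∈ M := by
    intro i
    have hnili : IsNilpotent (y i) := hnil _ (NonUnitalAlgebra.subset_adjoin K ⟨i, rfl⟩)
    obtain ⟨w, hw⟩ := hnili.isUnit_one_add
    have hwG : w ∈ G := Subgroup.subset_closure ⟨i, hw⟩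
    have : y i = (w : B) - 1 := by rw [hw, add_sub_cancel_left]
    rw [this]
    exact M.sub_mem (Submodule.subset_span ⟨w, hwG, rfl⟩) hM1
  have hMfin : Finite M := by
    have : Module.Finite ℤ M := Module.Finite.span_of_finite ℤ hS
    have hFG : AddGroup.FG M := by
      rw [← Module.Finite.iff_addGroup_fg]
      exact this
    have htors : IsAddTorsion M := by
      intro x
      rw [isOfFinAddOrder_iff_nsmul_eq_zero]
      refine ⟨p, (Fact.out : p.Prime).pos, Subtype.ext ?_⟩
      change p • (x : B) = 0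
      rw [nsmul_eq_mul, CharP.cast_eq_zero, zero_mul]
    exact AddCommGroup.finite_of_fg_isAddTorsion M htors
  obtain ⟨w, hw⟩ := hne (Nat.card M + 1)
  set l := List.ofFn (fun i => y (w i)) with hl
  have hlen : l.length = Nat.card M + 1 := by simp [hl]
  have hlmem : ∀ x ∈ l, ∃ i, x = y i := by
    intro x hx
    rw [hl, List.mem_ofFn] at hx
    obtain ⟨i, hi⟩ := hx
    exact ⟨w i, hi.symm⟩
  have hprodM : ∀ l' : List B, (∀ x ∈ l', ∃ i, x = y i) → l'.prod ∈ M := by
    intro l'
    induction l' with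
    | nil => intro _; simpa using hM1
    | cons x l' ih =>
      intro h
      rw [List.prod_cons]
      obtain ⟨i, hi⟩ := h x (by simp)
      exact hMmul _ (hi ▸ hMy i) _ (ih (fun z hz => h z (by simp [hz])))
  have hprodA : ∀ l' : List B, l' ≠ [] → (∀ x ∈ l', ∃ i, x = y i) →
      l'.prod ∈ NonUnitalAlgebra.adjoin K (Set.range y) := by
    intro l'
    induction l' with
    | nil => intro h _; exact absurd rfl h
    | cons x l' ih =>
      intro _ h
      rw [List.prod_cons]
      obtain ⟨i, hi⟩ := h x (by simp)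
      have hx : x ∈ NonUnitalAlgebra.adjoin K (Set.range y) :=
        NonUnitalAlgebra.subset_adjoin K ⟨i, hi.symm⟩
      by_cases hl' : l' = []
      · rw [hl']; simpa using hx
      · exact mul_mem hx (ih hl' (fun z hz => h z (by simp [hz])))
  let P : Fin (Nat.card M + 1 + 1) → M := fun j =>
    ⟨(l.take j).prod, hprodM _ (fun x hx => hlmem x (List.mem_of_mem_take hx))⟩
  have hninj : ¬ Function.Injective P := by
    intro hinj
    have := Nat.card_le_card_of_injective P hinj
    rw [Nat.card_fin] at this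
    omega
  rw [Function.not_injective_iff] at hninj
  have key : ∀ a b : Fin (Nat.card M + 1 + 1), P a = P b → a < b → False := by
    intro a b hab hlt
    have hab' : (l.take a).prod = (l.take b).prod := congrArg Subtype.val hab
    have h1 : l.take b = l.take a ++ (l.take b).drop a := by
      have h2 := List.take_append_drop (a : ℕ) (l.take b)
      rw [List.take_take, min_eq_left (le_of_lt (Fin.lt_def.1 hlt))] at h2
      exact h2.symm
    set c := ((l.take b).drop a).prod with hc
    have hPc : (l.take a).prod = (l.take a).prod * c := by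
      have h2 : (l.take b).prod = (l.take a).prod * c := by
        rw [hc, ← List.prod_append, ← h1]
      rw [← h2, hab']
    have hcne : (l.take b).drop a ≠ [] := by
      intro h0
      have h3 := congrArg List.length h0
      rw [List.length_drop, List.length_take, List.length_nil, hlen] at h3
      have h4 := b.2
      have h5 := Fin.lt_def.1 hlt
      omega
    have hcA := hprodA _ hcne (fun x hx => hlmem x (List.mem_of_mem_take (List.mem_of_mem_drop hx)))
    obtain ⟨m, hm⟩ := hnil _ hcA
    have hpow : ∀ k : ℕ, (l.take a).prod = (l.take a).prod * c ^ k := by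
      intro k
      induction k with
      | zero => simp
      | succ k ih =>
        rw [pow_succ, ← mul_assoc, ← ih]
        exact hPc
    have h0 : (l.take a).prod = 0 := by
      rw [hpow m, hc, hm, mul_zero]
    apply hw
    rw [← List.take_append_drop (a : ℕ) l, List.prod_append, h0, zero_mul]
  obtain ⟨a, b, hab, hne'⟩ := hninj
  rcases lt_or_gt_of_ne hne' with h | h
  · exact key a b hab h
  · exact key b a hab.symm h

end golod

end Run7.h79
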